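import Pool.Agent.Q76.TB.Reduce

/-!
# Tree bootstrap percolation: the private leaves act as colours
-/

namespace Pool.Agent.Q76.TB

open SimpleGraph

section
variable {X : Type} {a : X → ℕ}

theorem cor_adj_leaf {J : SimpleGraph X} {p q : K a} (h : (cor a J).Adj p q) (hp : p.2.val ≠ 0) :
    p.1 = q.1 ∧ q.2.val = 0 := by
  rcases h with ⟨h1, -, -⟩ | ⟨h1, ⟨h2, -⟩ | ⟨-, h3⟩⟩
  · exact absurd h1 hp
  · exact absurd h2 hp
  · exact ⟨h1, h3⟩

theorem K_ext {p q : K a} (h1 : p.1 = q.1) (h2 : p.2.val = q.2.val) : p = q := by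
  obtain ⟨x, i⟩ := p
  obtain ⟨y, j⟩ := q
  simp only at h1
  subst h1
  simp only at h2
  rw [Fin.ext h2]

/-- A spanning copy of `cor a F` in `cor a J` plus one edge comes from a colour-preserving
permutation of the main vertices. -/
theorem colNew_of_hub [Fintype X] (h3 : ∀ x, 3 ≤ a x) (hodd : ∀ x, Odd (a x))
    (F J : SimpleGraph X) {p' q' : K a} (hn : ¬ (cor a J).Adj p' q')
    (ρ : K a → K a) (hρ : Function.Injective ρ)
    (hom : ∀ p q, (cor a F).Adj p q → (cor a J).Adj (ρ p) (ρ q) ∨ s(ρ p, ρ q) = s(p', q'))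
    (hused : ∃ p q, (cor a F).Adj p q ∧ s(ρ p, ρ q) = s(p', q')) :
    ∃ x y : X, p' = ⟨x, 0⟩ ∧ q' = ⟨y, 0⟩ ∧ ColNew a F J x y := by
  classical
  -- leaves of `x`
  let lf : ∀ x : X, Fin (a x) → K a := fun x i => ⟨x, i.succ⟩
  have hlf : ∀ x i, (cor a F).Adj (⟨x, 0⟩ : K a) (lf x i) := by
    intro x i
    exact Or.inr ⟨rfl, Or.inl ⟨rfl, by simp [lf]⟩⟩
  have hlfinj : ∀ x i j, lf x i = lf x j → i = j := by
    intro x i j h
    have : (lf x i).2.val = (lf x j).2.val := by rw [h]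
    simp only [lf, Fin.val_succ] at this
    exact Fin.ext (by omega)
  -- main vertices go to main vertices
  have hmain : ∀ x : X, (ρ ⟨x, 0⟩).2.val = 0 := by
    intro x
    by_contra hne
    have hax := h3 x
    have hcase : ∀ i : Fin (a x), ρ (lf x i) = ⟨(ρ ⟨x, 0⟩).1, 0⟩ ∨
        s(ρ ⟨x, 0⟩, ρ (lf x i)) = s(p', q') := by
      intro i
      rcases hom _ _ (hlf x i) with h | h
      · left
        have h4 := cor_adj_leaf h hne
        exact K_ext h4.1.symm h4.2
      · exact Or.inr h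
    have h1 : ∀ i j : Fin (a x), i ≠ j → ¬ (ρ (lf x i) = ⟨(ρ ⟨x, 0⟩).1, 0⟩ ∧
        ρ (lf x j) = ⟨(ρ ⟨x, 0⟩).1, 0⟩) := by
      rintro i j hij ⟨e1, e2⟩
      exact hij (hlfinj x i j (hρ (e1.trans e2.symm)))
    have h2 : ∀ i j : Fin (a x), i ≠ j → ¬ (s(ρ ⟨x, 0⟩, ρ (lf x i)) = s(p', q') ∧
        s(ρ ⟨x, 0⟩, ρ (lf x j)) = s(p', q')) := by
      rintro i j hij ⟨e1, e2⟩
      rw [← e2, Sym2.eq_iff] at e1
      rcases e1 with ⟨-, e⟩ | ⟨e, -⟩
      · exact hij (hlfinj x i j (hρ e))
      · have := congrArg (fun r : K a => r.2.val) (hρ e)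
        simp [lf] at this
    have c0 := hcase ⟨0, by omega⟩
    have c1 := hcase ⟨1, by omega⟩
    have c2 := hcase ⟨2, by omega⟩
    have n01 : (⟨0, by omega⟩ : Fin (a x)) ≠ ⟨1, by omega⟩ := by simp
    have n02 : (⟨0, by omega⟩ : Fin (a x)) ≠ ⟨2, by omega⟩ := by simp
    have n12 : (⟨1, by omega⟩ : Fin (a x)) ≠ ⟨2, by omega⟩ := by simp
    rcases c0 with c0 | c0 <;> rcases c1 with c1 | c1
    · exact h1 _ _ n01 ⟨c0, c1⟩
    · rcases c2 with c2 | c2
      · exact h1 _ _ n02 ⟨c0, c2⟩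
      · exact h2 _ _ n12 ⟨c1, c2⟩
    · rcases c2 with c2 | c2
      · exact h1 _ _ n12 ⟨c1, c2⟩
      · exact h2 _ _ n02 ⟨c0, c2⟩
    · exact h2 _ _ n01 ⟨c0, c1⟩
  let ψ0 : X → X := fun x => (ρ ⟨x, 0⟩).1
  have hψ0 : ∀ x, ρ ⟨x, 0⟩ = ⟨ψ0 x, 0⟩ := fun x => K_ext rfl (hmain x)
  have hψinj : Function.Injective ψ0 := by
    intro x y h
    have h4 : ρ ⟨x, 0⟩ = ρ ⟨y, 0⟩ := by rw [hψ0, hψ0, h]
    have := hρ h4
    exact congrArg Sigma.fst this
  let ψ : Equiv.Perm X := Equiv.ofBijective ψ0 (Finite.injective_iff_bijective.1 hψinj)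
  have hψ : ∀ x, ρ ⟨x, 0⟩ = ⟨ψ x, 0⟩ := hψ0
  -- leaves go to leaves
  have hleaf : ∀ x i, (ρ (lf x i)).2.val ≠ 0 := by
    intro x i h
    have h4 : ρ (lf x i) = ρ ⟨ψ.symm (ρ (lf x i)).1, 0⟩ := by
      rw [hψ]
      apply K_ext
      · simp
      · simpa using h
    have := congrArg (fun r : K a => r.2.val) (hρ h4)
    simp [lf] at this
  -- a leaf stays with its owner, unless the new edge is used
  have hown : ∀ x i, (ρ (lf x i)).1 = ψ x ∨
      s((⟨ψ x, 0⟩ : K a), ρ (lf x i)) = s(p', q') := by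
    intro x i
    rcases hom _ _ (hlf x i) with h | h
    · left
      exact (cor_adj_leaf h.symm (hleaf x i)).1.trans (by rw [hψ])
    · right
      rw [hψ] at h
      exact h
  -- counting
  have hsum : ∑ x, a (ψ x) = ∑ x, a x := Equiv.sum_comp ψ a
  have hcount : ∀ (x y : X) (s : Finset (Fin (a x))) (t : Finset ℕ),
      (∀ i ∈ s, (ρ (lf x i)).1 = y) → (∀ i ∈ s, (ρ (lf x i)).2.val ∈ t) → s.card ≤ t.card := by
    intro x y s t h1 h2
    apply Finset.card_le_card_of_injOn (fun i => (ρ (lf x i)).2.val) h2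
    intro i hi j hj hij
    apply hlfinj x
    apply hρ
    exact K_ext ((h1 i hi).trans (h1 j hj).symm) hij
  have hIcc : ∀ x i y, (ρ (lf x i)).1 = y → (ρ (lf x i)).2.val ∈ Finset.Icc 1 (a y) := by
    rintro x i y rfl
    rw [Finset.mem_Icc]
    have := (ρ (lf x i)).2.isLt
    have := hleaf x i
    omega
  -- the new edge does not join a main vertex and a leaf
  have hno : ∀ (x' : X) (r : K a), r.2.val ≠ 0 → s((⟨x', 0⟩ : K a), r) ≠ s(p', q') := by
    intro x' r hr hs
    have hrx : r.1 ≠ x' := by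
      intro h
      apply hn
      have : (cor a J).Adj (⟨x', 0⟩ : K a) r := Or.inr ⟨h.symm, Or.inl ⟨rfl, hr⟩⟩
      rw [Sym2.eq_iff] at hs
      rcases hs with ⟨e1, e2⟩ | ⟨e1, e2⟩
      · rw [e1, e2] at this; exact this
      · rw [e1, e2] at this; exact this.symm
    have hown' : ∀ x i, (ρ (lf x i)).1 = ψ x ∨ (ψ x = x' ∧ ρ (lf x i) = r) := by
      intro x i
      rcases hown x i with h | h
      · exact Or.inl h
      · right
        rw [← hs, Sym2.eq_iff] at h
        rcases h with ⟨e1, e2⟩ | ⟨e1, e2⟩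
        · exact ⟨congrArg Sigma.fst e1, e2⟩
        · exfalso
          apply hr
          rw [← e1]
          rfl
    -- the leaf `r` is not the image of a leaf of the main vertex sent to `r.1`
    have hr2 : ∀ x i, ψ x = r.1 → ρ (lf x i) ≠ r := by
      intro x i hx hri
      obtain ⟨p, q, hpq, hs2⟩ := hused
      rw [← hs, Sym2.eq_iff] at hs2
      have aux : ∀ p q : K a, (cor a F).Adj p q → ρ p = ⟨x', 0⟩ → ρ q = r → False := by
        intro p q hpq e1 e2
        have e3 : q = lf x i := hρ (e2.trans hri.symm)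
        rw [e3] at hpq
        have h4 := cor_adj_leaf hpq.symm (by simp [lf])
        have h5 : p = ⟨x, 0⟩ := K_ext h4.1.symm h4.2
        rw [h5, hψ] at e1
        have h6 := congrArg Sigma.fst e1
        simp only at h6
        exact hrx (hx.symm.trans h6)
      rcases hs2 with ⟨e1, e2⟩ | ⟨e1, e2⟩
      · exact aux p q hpq e1 e2
      · exact aux q p hpq.symm e2 e1
    have hle : ∀ x, a x ≤ a (ψ x) := by
      intro x
      by_cases hx : ψ x = x'
      · have hc : (Finset.univ.filter fun i : Fin (a x) => ρ (lf x i) ≠ r).card ≤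
            (Finset.Icc 1 (a (ψ x))).card := by
          apply hcount x (ψ x)
          · intro i hi
            rw [Finset.mem_filter] at hi
            rcases hown' x i with h | h
            · exact h
            · exact absurd h.2 hi.2
          · intro i hi
            rw [Finset.mem_filter] at hi
            rcases hown' x i with h | h
            · exact hIcc x i _ h
            · exact absurd h.2 hi.2
        have hc2 : (Finset.univ.filter fun i : Fin (a x) => ρ (lf x i) = r).card ≤ 1 := by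
          rw [Finset.card_le_one]
          intro i hi j hj
          rw [Finset.mem_filter] at hi hj
          exact hlfinj x i j (hρ (hi.2.trans hj.2.symm))
        have hc3 := Finset.card_filter_add_card_filter_not (s := (Finset.univ : Finset (Fin (a x))))
          (fun i => ρ (lf x i) = r)
        rw [Nat.card_Icc] at hc
        rw [Finset.card_univ, Fintype.card_fin] at hc3
        have o1 := hodd x
        have o2 := hodd (ψ x)
        obtain ⟨m1, hm1⟩ := o1
        obtain ⟨m2, hm2⟩ := o2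
        have hc' : (Finset.univ.filter fun i : Fin (a x) => ¬ ρ (lf x i) = r).card ≤
            a (ψ x) + 1 - 1 := hc
        omega
      · have hc := hcount x (ψ x) Finset.univ (Finset.Icc 1 (a (ψ x))) (fun i _ => by
            rcases hown' x i with h | h
            · exact h
            · exact absurd h.1 hx) (fun i _ => by
            rcases hown' x i with h | h
            · exact hIcc x i _ h
            · exact absurd h.1 hx)
        simpa using hc
    have hlt : a (ψ.symm r.1) < a (ψ (ψ.symm r.1)) := by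
      have hx : ψ (ψ.symm r.1) = r.1 := by simp
      have hx' : ψ (ψ.symm r.1) ≠ x' := by rw [hx]; exact hrx
      have hc := hcount (ψ.symm r.1) r.1 Finset.univ ((Finset.Icc 1 (a r.1)).erase r.2.val)
        (fun i _ => by
            rcases hown' _ i with h | h
            · rw [h, hx]
            · exact absurd h.1 hx') (fun i _ => by
            rcases hown' _ i with h | h
            · rw [Finset.mem_erase]
              refine ⟨?_, ?_⟩
              · intro h7
                apply hr2 _ i hx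
                exact K_ext (h.trans hx) h7
              · exact hIcc _ i _ (h.trans hx)
            · exact absurd h.1 hx')
      have hmem : r.2.val ∈ Finset.Icc 1 (a r.1) := by
        rw [Finset.mem_Icc]
        have := r.2.isLt
        omega
      rw [Finset.card_erase_of_mem hmem, Nat.card_Icc, Finset.card_univ, Fintype.card_fin] at hc
      rw [hx]
      have := h3 r.1
      omega
    have := Finset.sum_lt_sum (fun x (_ : x ∈ Finset.univ) => hle x)
      ⟨ψ.symm r.1, Finset.mem_univ _, hlt⟩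
    omega
  -- colours are preserved
  have hle : ∀ x ∈ (Finset.univ : Finset X), a x ≤ a (ψ x) := by
    intro x _
    have hown2 : ∀ i, (ρ (lf x i)).1 = ψ x := by
      intro i
      rcases hown x i with h | h
      · exact h
      · exact absurd h (hno _ _ (hleaf x i))
    have hc := hcount x (ψ x) Finset.univ (Finset.Icc 1 (a (ψ x))) (fun i _ => hown2 i)
      (fun i _ => hIcc x i _ (hown2 i))
    simpa using hc
  have heq : ∀ x, a (ψ x) = a x := by
    intro x
    exact ((Finset.sum_eq_sum_iff_of_le hle).1 hsum.symm x (Finset.mem_univ _)).symm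
  obtain ⟨p, q, hpq, hs⟩ := hused
  -- the used edge joins two main vertices
  have hpq0 : ∃ b c, F.Adj b c ∧ p = ⟨b, 0⟩ ∧ q = ⟨c, 0⟩ := by
    rcases hpq with ⟨h1, h2, h4⟩ | ⟨h1, ⟨h2, h4⟩ | ⟨h2, h4⟩⟩
    · exact ⟨p.1, q.1, h4, K_ext rfl h1, K_ext rfl h2⟩
    · exfalso
      have e1 : p = ⟨p.1, 0⟩ := K_ext rfl h2
      have e2 : q = lf q.1 (q.2.pred (fun h => h4 (by rw [h]; rfl))) :=
        K_ext rfl (by simp [lf])
      rw [e1, hψ] at hs
      exact hno _ _ (by rw [e2]; exact hleaf _ _) hs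
    · exfalso
      have e1 : q = ⟨q.1, 0⟩ := K_ext rfl h4
      have e2 : p = lf p.1 (p.2.pred (fun h => h2 (by rw [h]; rfl))) :=
        K_ext rfl (by simp [lf])
      rw [e1, hψ, Sym2.eq_swap] at hs
      exact hno _ _ (by rw [e2]; exact hleaf _ _) hs
  obtain ⟨b, c, hbc, rfl, rfl⟩ := hpq0
  rw [hψ, hψ] at hs
  have hends : ∃ x y : X, p' = ⟨x, 0⟩ ∧ q' = ⟨y, 0⟩ ∧ s(ψ b, ψ c) = s(x, y) := by
    rw [Sym2.eq_iff] at hs
    rcases hs with ⟨e1, e2⟩ | ⟨e1, e2⟩
    · exact ⟨ψ b, ψ c, e1.symm, e2.symm, rfl⟩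
    · exact ⟨ψ c, ψ b, e2.symm, e1.symm, Sym2.eq_swap⟩
  obtain ⟨x, y, rfl, rfl, hxy⟩ := hends
  refine ⟨x, y, rfl, rfl, ψ, heq, ?_, b, c, hbc, hxy⟩
  intro b' c' hbc'
  have h4 : (cor a F).Adj (⟨b', 0⟩ : K a) ⟨c', 0⟩ := Or.inl ⟨rfl, rfl, hbc'⟩
  rcases hom _ _ h4 with h5 | h5
  · left
    rw [hψ, hψ] at h5
    rcases h5 with ⟨-, -, h6⟩ | ⟨-, ⟨-, h6⟩ | ⟨h6, -⟩⟩
    · exact h6
    · exact absurd rfl h6
    · exact absurd rfl h6
  · right
    rw [hψ, hψ, Sym2.eq_iff] at h5
    rw [Sym2.eq_iff]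
    rcases h5 with ⟨e1, e2⟩ | ⟨e1, e2⟩
    · exact Or.inl ⟨congrArg Sigma.fst e1, congrArg Sigma.fst e2⟩
    · exact Or.inr ⟨congrArg Sigma.fst e1, congrArg Sigma.fst e2⟩

/-- A new copy of the tree in the host graph: the new edge joins two main vertices and comes from
the coloured process. -/
theorem colNew_of_newCopy [Fintype X] {V : Type} {Φ : VT a → V} (hΦ : Function.Injective Φ)
    (h3 : ∀ x, 3 ≤ a x) (hodd : ∀ x, Odd (a x)) (F J : SimpleGraph X) (R : Set X)
    {u v : V} (huv : u ≠ v) (hn : ¬ (Big Φ J hΦ).Adj u v)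
    (h : NewCopy (treeG a F R) (Big Φ J hΦ) u v) :
    ∃ x y : X, u = main Φ x ∧ v = main Φ y ∧ x ≠ y ∧ ¬ J.Adj x y ∧ ColNew a F J x y := by
  obtain ⟨p', q', rfl, rfl, hne, hn', ρ, hρ, hom, hused⟩ := newCopy_hub hΦ F J R huv hn h
  obtain ⟨x, y, rfl, rfl, hc⟩ := colNew_of_hub h3 hodd F J hn' ρ hρ hom hused
  refine ⟨x, y, rfl, rfl, fun h => hne (by rw [h]), ?_, hc⟩
  intro h
  exact hn' (Or.inl ⟨rfl, rfl, h⟩)

end

end Pool.Agent.Q76.TB
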