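import Mathlib

/-!
# Tree bootstrap percolation: definitions and the characterisation of one round
-/

namespace Pool.Agent.Q76.TB

open SimpleGraph

/-- One round of the `H`-process on `G`: all non-edges `uv` such that `G + uv` has more copies of
`H` (subgraphs isomorphic to `H`) than `G` are added simultaneously. -/
noncomputable def step {V W : Type} [Fintype V] (H : SimpleGraph W) (G : SimpleGraph V) :
    SimpleGraph V :=
  SimpleGraph.fromRel fun u v => G.Adj u v ∨
    (¬ G.Adj u v ∧ G.copyCount H < (G ⊔ SimpleGraph.edge u v).copyCount H)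

/-- The graph after `i` rounds of the `H`-process started at `G`. -/
noncomputable def proc {V W : Type} [Fintype V] (H : SimpleGraph W) (G : SimpleGraph V) (i : ℕ) :
    SimpleGraph V := (step H)^[i] G

/-- The running time: the least `s` with `G_s = G_{s+1}`. -/
noncomputable def runTime {V W : Type} [Fintype V] (H : SimpleGraph W) (G : SimpleGraph V) : ℕ :=
  sInf {s | proc H G s = proc H G (s + 1)}

/-- `M_H(n)`: the maximum running time of the `H`-process over all graphs on `n` vertices. -/
noncomputable def maxRunTime {W : Type} (H : SimpleGraph W) (n : ℕ) : ℕ :=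
  ⨆ G : SimpleGraph (Fin n), runTime H G

/-- `M*(t)`: the maximum over all trees `T` on `t` vertices of `limsup_n M_T(n)`. -/
noncomputable def MStar (t : ℕ) : ℕ∞ :=
  ⨆ T : {T : SimpleGraph (Fin t) // T.IsTree},
    Filter.limsup (fun n : ℕ => (maxRunTime T.1 n : ℕ∞)) Filter.atTop

/-- `G + uv` contains a copy of `H` which uses the edge `uv`. -/
def NewCopy {V W : Type} (H : SimpleGraph W) (G : SimpleGraph V) (u v : V) : Prop :=
  ∃ φ : W → V, Function.Injective φ ∧
    (∀ a b, H.Adj a b → G.Adj (φ a) (φ b) ∨ s(φ a, φ b) = s(u, v)) ∧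
    ∃ a b, H.Adj a b ∧ s(φ a, φ b) = s(u, v)

theorem sup_edge_adj_iff {V : Type} (G : SimpleGraph V) {u v : V} (huv : u ≠ v) (a b : V) :
    (G ⊔ SimpleGraph.edge u v).Adj a b ↔ G.Adj a b ∨ s(a, b) = s(u, v) := by
  rw [SimpleGraph.sup_adj, SimpleGraph.edge_adj]
  constructor
  · rintro (h | ⟨h, -⟩)
    · exact Or.inl h
    · right
      rcases h with ⟨rfl, rfl⟩ | ⟨rfl, rfl⟩
      · rfl
      · exact Sym2.eq_swap
  · rintro (h | h)
    · exact Or.inl h
    · right
      rw [Sym2.eq_iff] at h
      rcases h with ⟨rfl, rfl⟩ | ⟨rfl, rfl⟩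
      · exact ⟨Or.inl ⟨rfl, rfl⟩, huv⟩
      · exact ⟨Or.inr ⟨rfl, rfl⟩, huv.symm⟩

theorem copyCount_lt_iff {V W : Type} [Fintype V] (H : SimpleGraph W) (G : SimpleGraph V)
    {u v : V} (huv : u ≠ v) (hG : ¬ G.Adj u v) :
    G.copyCount H < (G ⊔ SimpleGraph.edge u v).copyCount H ↔ NewCopy H G u v := by
  classical
  set G' := G ⊔ SimpleGraph.edge u v with hG'
  have hle : G ≤ G' := le_sup_left
  let f : G.Subgraph → G'.Subgraph := fun S => S.map (Hom.ofLE hle)
  have hadj : ∀ (S : G.Subgraph) a b, (f S).Adj a b ↔ S.Adj a b := by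
    intro S a b
    simp [f, Relation.Map]
  have hverts : ∀ (S : G.Subgraph), (f S).verts = S.verts := by
    intro S
    simp [f]
  have hf : Function.Injective f := by
    intro S S' h
    ext a b
    · rw [← hverts S, ← hverts S', h]
    · rw [← hadj S, ← hadj S', h]
  have hiso : ∀ (S : G.Subgraph), Nonempty (H ≃g S.coe) → Nonempty (H ≃g (f S).coe) := by
    rintro S ⟨e⟩
    exact ⟨e.trans ((Copy.ofLE G G' hle).isoSubgraphMap S)⟩
  constructor
  · intro h
    by_contra hno
    apply absurd h
    rw [not_lt, copyCount, copyCount]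
    refine le_trans (Finset.card_le_card (t := (Finset.univ.filter
      fun S : G.Subgraph => Nonempty (H ≃g S.coe)).image f) ?_) Finset.card_image_le
    intro S' hS'
    simp only [Finset.mem_filter, Finset.mem_univ, true_and] at hS'
    obtain ⟨e⟩ := hS'
    have hnuv : ¬ S'.Adj u v := by
      intro hS
      apply hno
      refine ⟨fun w => (e w : V), ?_, ?_, ?_⟩
      · exact Subtype.val_injective.comp e.injective
      · intro a b hab
        have h1 : S'.coe.Adj (e a) (e b) := e.map_adj_iff.2 hab
        have h2 : G'.Adj (e a : V) (e b : V) := S'.adj_sub h1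
        exact (sup_edge_adj_iff G huv _ _).1 h2
      · refine ⟨e.symm ⟨u, S'.edge_vert hS⟩, e.symm ⟨v, S'.edge_vert hS.symm⟩, ?_, ?_⟩
        · rw [e.symm.map_adj_iff]
          exact hS
        · simp
    let S : G.Subgraph :=
      { verts := S'.verts
        Adj := S'.Adj
        adj_sub := by
          intro a b hab
          have h2 : G'.Adj a b := S'.adj_sub hab
          rcases (sup_edge_adj_iff G huv _ _).1 h2 with h3 | h3
          · exact h3
          · exfalso
            rw [Sym2.eq_iff] at h3
            rcases h3 with ⟨rfl, rfl⟩ | ⟨rfl, rfl⟩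
            · exact hnuv hab
            · exact hnuv hab.symm
        edge_vert := fun hab => S'.edge_vert hab
        symm := S'.symm }
    have hfS : f S = S' := by
      ext a b
      · rw [hverts]
      · rw [hadj]
    rw [Finset.mem_image]
    refine ⟨S, ?_, hfS⟩
    simp only [Finset.mem_filter, Finset.mem_univ, true_and]
    exact ⟨e⟩
  · rintro ⟨φ, hφ, h1, a, b, hab, h2⟩
    let c : Copy H G' := ⟨⟨φ, fun {x y} hxy => (sup_edge_adj_iff G huv _ _).2 (h1 x y hxy)⟩, hφ⟩
    have hc : Nonempty (H ≃g c.toSubgraph.coe) := ⟨c.isoToSubgraph⟩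
    have hcadj : c.toSubgraph.Adj u v := by
      have h3 : c.toSubgraph.Adj (φ a) (φ b) := by
        refine ⟨a, b, hab, rfl, rfl⟩
      rw [Sym2.eq_iff] at h2
      rcases h2 with ⟨h4, h5⟩ | ⟨h4, h5⟩
      · rw [h4, h5] at h3; exact h3
      · rw [h4, h5] at h3; exact h3.symm
    rw [copyCount, copyCount]
    rw [← Finset.card_image_of_injective _ hf]
    apply Finset.card_lt_card
    rw [Finset.ssubset_iff_of_subset]
    · refine ⟨c.toSubgraph, ?_, ?_⟩
      · simpa using hc
      · intro hmem
        rw [Finset.mem_image] at hmem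
        obtain ⟨S, -, hS⟩ := hmem
        rw [← hS, hadj] at hcadj
        exact hG (S.adj_sub hcadj)
    · intro S' hS'
      rw [Finset.mem_image] at hS'
      obtain ⟨S, hS, rfl⟩ := hS'
      simp only [Finset.mem_filter, Finset.mem_univ, true_and] at hS ⊢
      exact hiso S hS

theorem NewCopy.symm' {V W : Type} {H : SimpleGraph W} {G : SimpleGraph V} {u v : V}
    (h : NewCopy H G u v) : NewCopy H G v u := by
  unfold NewCopy at *
  rwa [Sym2.eq_swap (a := v) (b := u)]

theorem step_adj {V W : Type} [Fintype V] (H : SimpleGraph W) (G : SimpleGraph V) (u v : V) :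
    (step H G).Adj u v ↔ G.Adj u v ∨ (u ≠ v ∧ ¬ G.Adj u v ∧ NewCopy H G u v) := by
  unfold step
  rw [SimpleGraph.fromRel_adj]
  constructor
  · rintro ⟨hne, (h | ⟨h, h'⟩) | (h | ⟨h, h'⟩)⟩
    · exact Or.inl h
    · exact Or.inr ⟨hne, h, (copyCount_lt_iff H G hne h).1 h'⟩
    · exact Or.inl h.symm
    · exact Or.inr ⟨hne, fun h2 => h h2.symm, ((copyCount_lt_iff H G hne.symm h).1 h').symm'⟩
  · rintro (h | ⟨hne, h, h'⟩)
    · exact ⟨h.ne, Or.inl (Or.inl h)⟩
    · exact ⟨hne, Or.inl (Or.inr ⟨h, (copyCount_lt_iff H G hne h).2 h'⟩)⟩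

theorem step_mono {V W : Type} [Fintype V] (H : SimpleGraph W) {G G' : SimpleGraph V}
    (h : G ≤ G') : step H G ≤ step H G' := by
  intro u v huv
  rw [step_adj] at huv ⊢
  rcases huv with h1 | ⟨hne, h1, φ, hφ, h2, a, b, hab, h3⟩
  · exact Or.inl (h h1)
  · by_cases h4 : G'.Adj u v
    · exact Or.inl h4
    · exact Or.inr ⟨hne, h4, φ, hφ, fun a b hab => (h2 a b hab).imp (fun h5 => h h5) id,
        a, b, hab, h3⟩

theorem le_step {V W : Type} [Fintype V] (H : SimpleGraph W) (G : SimpleGraph V) :
    G ≤ step H G := fun u v h => (step_adj H G u v).2 (Or.inl h)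

theorem proc_succ {V W : Type} [Fintype V] (H : SimpleGraph W) (G : SimpleGraph V) (i : ℕ) :
    proc H G (i + 1) = step H (proc H G i) := by
  unfold proc
  rw [Function.iterate_succ_apply']

theorem le_proc {V W : Type} [Fintype V] (H : SimpleGraph W) (G : SimpleGraph V) (i : ℕ) :
    G ≤ proc H G i := by
  induction i with
  | zero => exact le_rfl
  | succ i ih => rw [proc_succ]; exact ih.trans (le_step H _)

/-- If the process does not stabilise before time `N`, the running time is at least `N`. -/
theorem le_runTime {V W : Type} [Fintype V] (H : SimpleGraph W) (G : SimpleGraph V) (N : ℕ)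
    (h : ∀ i < N, proc H G i ≠ proc H G (i + 1))
    (hex : ∃ s, proc H G s = proc H G (s + 1)) : N ≤ runTime H G := by
  unfold runTime
  apply le_csInf hex
  intro s hs
  by_contra hlt
  exact h s (by omega) hs

/-- The process stabilises. -/
theorem exists_stable {V W : Type} [Fintype V] (H : SimpleGraph W) (G : SimpleGraph V) :
    ∃ s, proc H G s = proc H G (s + 1) := by
  classical
  by_contra hno
  push Not at hno
  have hlt : ∀ s, proc H G s < proc H G (s + 1) := by
    intro s
    refine lt_of_le_of_ne ?_ (hno s)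
    rw [proc_succ]
    exact le_step H _
  have hmono : StrictMono (proc H G) := strictMono_nat_of_lt_succ hlt
  exact not_injective_infinite_finite _ hmono.injective

end Pool.Agent.Q76.TB
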