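import Pool.Agent.Q76.TB.Proc

/-!
# Tree bootstrap percolation: the slow process does finish, and the final assembly
-/

namespace Pool.Agent.Q76.TB

open SimpleGraph

section
variable {s m : ℕ}

theorem colNew_intro {J : SimpleGraph (X s m)} (σ : Equiv.Perm (Fin (s + 2 + m)))
    (β : Equiv.Perm (Fin 3)) (x y : X s m)
    (hww : ∀ i k : Fin (s + 2 + m), i.val = 0 → k.val = s + 1 →
      J.Adj (.inl (σ i)) (.inl (σ k)) ∨ s(.inl (σ i), .inl (σ k)) = s(x, y))
    (hwb : ∀ (i : Fin (s + 2 + m)) (b : Fin 3),
      ((i.val = s ∧ b = 0) ∨ (i.val = s + 1 ∧ b ≠ 0)) →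
      J.Adj (.inl (σ i)) (.inr (.inl (β b))) ∨
        s(.inl (σ i), .inr (.inl (β b))) = s(x, y))
    (hwg : ∀ (i : Fin (s + 2 + m)) (j : Fin s), (i.val = j.val ∨ i.val = j.val + 1) →
      J.Adj (.inl (σ i)) (.inr (.inr j)) ∨ s(.inl (σ i), .inr (.inr j)) = s(x, y))
    (hused : ∃ b c, (FF s m).Adj b c ∧
      s(Equiv.sumCongr σ (Equiv.sumCongr β (Equiv.refl _)) b,
        Equiv.sumCongr σ (Equiv.sumCongr β (Equiv.refl _)) c) = s(x, y)) :
    ColNew (col s m) (FF s m) J x y := by
  have sw : ∀ u v : X s m, J.Adj u v ∨ s(u, v) = s(x, y) → J.Adj v u ∨ s(v, u) = s(x, y) := by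
    intro u v h
    rcases h with h | h
    · exact Or.inl h.symm
    · right; rw [Sym2.eq_swap]; exact h
  refine ⟨Equiv.sumCongr σ (Equiv.sumCongr β (Equiv.refl _)), ?_, ?_, hused⟩
  · rintro (i | i | i) <;> rfl
  · rintro (i | i | i) (k | k | k) h
    · rcases h with ⟨h1, h2⟩ | ⟨h1, h2⟩
      · exact hww i k h1 h2
      · exact sw _ _ (hww k i h1 h2)
    · exact hwb i k h
    · exact hwg i k h
    · exact sw _ _ (hwb k i h)
    · exact absurd h (by simp [FF])
    · exact absurd h (by simp [FF])
    · exact sw _ _ (hwg k i h)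
    · exact absurd h (by simp [FF])
    · exact absurd h (by simp [FF])

/-- In a graph closed under the coloured rule all items are completed. -/
theorem closure_complete (hs : 0 < s) {J : SimpleGraph (X s m)} (h0 : UU s m 0 ≤ J)
    (hrule : ∀ x y, x ≠ y → ColNew (col s m) (FF s m) J x y → J.Adj x y) :
    ∀ (d : ℕ) (h : s + 1 + d < s + 2 + m) (b : Fin 3),
      J.Adj (.inl ⟨s + 1 + d, h⟩) (.inr (.inl b)) := by
  have dwb : ∀ (i : Fin (s + 2 + m)) (b : Fin 3), i.val ≤ s + 1 →
      J.Adj (.inl i) (.inr (.inl b)) := fun i b hi => h0 (Or.inl hi : PP s i.val (s + 1) 0)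
  have dwg : ∀ (i : Fin (s + 2 + m)) (j : Fin s), i.val ≤ s + 1 →
      J.Adj (.inl i) (.inr (.inr j)) := fun i j hi => h0 (Or.inl hi : PP s i.val (j.val + 1) 0)
  have dww : ∀ (i k : Fin (s + 2 + m)), i ≠ k → i.val ≤ s + 1 → k.val ≤ s + 1 →
      J.Adj (.inl i) (.inl k) := fun i k hik hi hk =>
    h0 (show (UU s m 0).Adj (.inl i) (.inl k) from
      ⟨hik, Or.inr (Or.inr ⟨Or.inl hi, Or.inl hk⟩)⟩)
  intro d
  induction d with
  | zero =>
    intro h b
    exact dwb _ _ le_rfl
  | succ d ih =>
    intro h b
    set u : Fin (s + 2 + m) := ⟨s + 1 + (d + 1), h⟩ with hu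
    have hv' : s + 1 + d < s + 2 + m := by omega
    set v : Fin (s + 2 + m) := ⟨s + 1 + d, hv'⟩ with hv
    have ihv : ∀ b, J.Adj (.inl v) (.inr (.inl b)) := ih hv'
    have i0 : 0 < s + 2 + m := by omega
    have is : s < s + 2 + m := by omega
    have is1 : s + 1 < s + 2 + m := by omega
    have huv : J.Adj (.inl u) (.inl v) := by
      refine h0 (show (UU s m 0).Adj (.inl u) (.inl v) from ⟨?_, Or.inr (Or.inl ⟨?_, ?_⟩)⟩)
      · intro h2
        have := congrArg Fin.val h2
        simp only [hu, hv] at this
        omega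
      · simp only [hu, hv]; omega
      · simp only [hv]; omega
    have huval : u.val = s + 1 + (d + 1) := rfl
    have hvval : v.val = s + 1 + d := rfl
    -- first pin
    have g0 : J.Adj (.inl u) (.inr (.inr ⟨0, hs⟩)) := by
      apply hrule _ _ (by simp)
      let σ : Equiv.Perm (Fin (s + 2 + m)) := Equiv.swap ⟨0, i0⟩ u * Equiv.swap ⟨s + 1, is1⟩ v
      have hσ0 : ∀ i : Fin (s + 2 + m), i.val = 0 → σ i = u := by
        intro i hi
        have e : i = ⟨0, i0⟩ := Fin.ext hi
        rw [e]
        have n1 : (⟨0, i0⟩ : Fin (s + 2 + m)) ≠ ⟨s + 1, is1⟩ := by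
          intro e; have := congrArg Fin.val e; simp only at this; omega
        have n2 : (⟨0, i0⟩ : Fin (s + 2 + m)) ≠ v := by
          intro e; have := congrArg Fin.val e; rw [hvval] at this; simp only at this; omega
        show Equiv.swap ⟨0, i0⟩ u (Equiv.swap ⟨s + 1, is1⟩ v ⟨0, i0⟩) = u
        rw [Equiv.swap_apply_of_ne_of_ne n1 n2, Equiv.swap_apply_left]
      have hσ1 : ∀ i : Fin (s + 2 + m), i.val = s + 1 → σ i = v := by
        intro i hi
        have e : i = ⟨s + 1, is1⟩ := Fin.ext hi
        rw [e]
        simp only [σ, Equiv.Perm.mul_apply]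
        rw [Equiv.swap_apply_left, Equiv.swap_apply_of_ne_of_ne]
        · simp [Fin.ext_iff, hv]
        · simp [Fin.ext_iff, hv, hu]
      have hσ2 : ∀ i : Fin (s + 2 + m), 0 < i.val → i.val ≤ s → σ i = i := by
        intro i hi hi2
        simp only [σ, Equiv.Perm.mul_apply]
        have n1 : i ≠ ⟨s + 1, is1⟩ := by
          intro e; rw [e] at hi2; simp only at hi2; omega
        have n2 : i ≠ v := by
          intro e; rw [e, hvval] at hi2; omega
        have n3 : i ≠ ⟨0, i0⟩ := by
          intro e; rw [e] at hi; simp only at hi; omega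
        have n4 : i ≠ u := by
          intro e; rw [e, huval] at hi2; omega
        rw [Equiv.swap_apply_of_ne_of_ne n1 n2, Equiv.swap_apply_of_ne_of_ne n3 n4]
      refine colNew_intro σ (Equiv.refl _) _ _ ?_ ?_ ?_ ?_
      · intro i k hi hk
        rw [hσ0 i hi, hσ1 k hk]
        exact Or.inl huv
      · rintro i b (⟨hi, -⟩ | ⟨hi, -⟩)
        · rw [hσ2 i (by omega) (by omega)]
          exact Or.inl (dwb _ _ (by omega))
        · rw [hσ1 i hi]
          exact Or.inl (ihv _)
      · intro i j hij
        rcases Nat.eq_zero_or_pos i.val with hi | hi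
        · right
          rw [hσ0 i hi]
          have : j = ⟨0, hs⟩ := Fin.ext (by simp only; omega)
          rw [this]
        · left
          have := j.isLt
          rw [hσ2 i hi (by omega)]
          exact dwg _ _ (by omega)
      · refine ⟨.inl ⟨0, i0⟩, .inr (.inr ⟨0, hs⟩), Or.inl rfl, ?_⟩
        simp only [Equiv.sumCongr_apply, Sum.map_inl, Sum.map_inr, Equiv.refl_apply]
        rw [hσ0 _ rfl]
    -- all pins
    have gj : ∀ (j : ℕ) (hj : j < s), J.Adj (.inl u) (.inr (.inr ⟨j, hj⟩)) := by
      intro j
      induction j with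
      | zero => intro hj; exact g0
      | succ j ihj =>
        intro hj
        have ihj' := ihj (by omega)
        apply hrule _ _ (by simp)
        have hj1 : j + 1 < s + 2 + m := by omega
        let σ : Equiv.Perm (Fin (s + 2 + m)) := Equiv.swap ⟨j + 1, hj1⟩ u
        have hσ0 : ∀ i : Fin (s + 2 + m), i.val = j + 1 → σ i = u := by
          intro i hi
          have e : i = ⟨j + 1, hj1⟩ := Fin.ext hi
          rw [e]
          exact Equiv.swap_apply_left _ _
        have hσ1 : ∀ i : Fin (s + 2 + m), i.val ≠ j + 1 → i.val ≤ s + 1 → σ i = i := by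
          intro i hi hi2
          apply Equiv.swap_apply_of_ne_of_ne
          · intro e; rw [e] at hi; exact hi rfl
          · intro e; rw [e, huval] at hi2; omega
        refine colNew_intro σ (Equiv.refl _) _ _ ?_ ?_ ?_ ?_
        · intro i k hi hk
          rw [hσ1 i (by omega) (by omega), hσ1 k (by omega) (by omega)]
          refine Or.inl (dww _ _ ?_ (by omega) (by omega))
          intro e; rw [e] at hi; omega
        · rintro i b (⟨hi, -⟩ | ⟨hi, -⟩)
          · rw [hσ1 i (by omega) (by omega)]
            exact Or.inl (dwb _ _ (by omega))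
          · rw [hσ1 i (by omega) (by omega)]
            exact Or.inl (dwb _ _ (by omega))
        · intro i j' hij
          have := j'.isLt
          by_cases hi : i.val = j + 1
          · rw [hσ0 i hi]
            rcases hij with hij | hij
            · right
              have : j' = ⟨j + 1, hj⟩ := Fin.ext (by simp only; omega)
              rw [this]
            · left
              have : j' = ⟨j, by omega⟩ := Fin.ext (by simp only; omega)
              rw [this]
              exact ihj'
          · rw [hσ1 i hi (by omega)]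
            exact Or.inl (dwg _ _ (by omega))
        · refine ⟨.inl ⟨j + 1, hj1⟩, .inr (.inr ⟨j + 1, hj⟩), Or.inl rfl, ?_⟩
          simp only [Equiv.sumCongr_apply, Sum.map_inl, Sum.map_inr, Equiv.refl_apply]
          rw [hσ0 _ rfl]
    -- the marks
    apply hrule _ _ (by simp)
    let σ : Equiv.Perm (Fin (s + 2 + m)) := Equiv.swap ⟨s, is⟩ u
    have hσ0 : ∀ i : Fin (s + 2 + m), i.val = s → σ i = u := by
      intro i hi
      have e : i = ⟨s, is⟩ := Fin.ext hi
      rw [e]
      exact Equiv.swap_apply_left _ _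
    have hσ1 : ∀ i : Fin (s + 2 + m), i.val ≠ s → i.val ≤ s + 1 → σ i = i := by
      intro i hi hi2
      apply Equiv.swap_apply_of_ne_of_ne
      · intro e; rw [e] at hi; exact hi rfl
      · intro e; rw [e, huval] at hi2; omega
    refine colNew_intro σ (Equiv.swap 0 b) _ _ ?_ ?_ ?_ ?_
    · intro i k hi hk
      rw [hσ1 i (by omega) (by omega), hσ1 k (by omega) (by omega)]
      refine Or.inl (dww _ _ ?_ (by omega) (by omega))
      intro e; rw [e] at hi; omega
    · rintro i b' (⟨hi, rfl⟩ | ⟨hi, -⟩)
      · rw [hσ0 i hi, Equiv.swap_apply_left]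
        exact Or.inr rfl
      · rw [hσ1 i (by omega) (by omega)]
        exact Or.inl (dwb _ _ (by omega))
    · intro i j' hij
      have := j'.isLt
      by_cases hi : i.val = s
      · rw [hσ0 i hi]
        left
        exact gj _ _
      · rw [hσ1 i hi (by omega)]
        exact Or.inl (dwg _ _ (by omega))
    · refine ⟨.inl ⟨s, is⟩, .inr (.inl 0), Or.inl ⟨rfl, rfl⟩, ?_⟩
      simp only [Equiv.sumCongr_apply, Sum.map_inl, Sum.map_inr]
      rw [hσ0 _ rfl, Equiv.swap_apply_left]

/-- The process does not stabilise before time `m (s+1)`. -/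
theorem not_stable (hs : 0 < s) (hm : 0 < m) {V : Type} [Fintype V] {Φ : VT (col s m) → V}
    (hΦ : Function.Injective Φ) (R : Set (X s m)) (n : ℕ) (hn : n < m * (s + 1)) :
    proc (treeG (col s m) (FF s m) R) (Big Φ (UU s m 0) hΦ) n ≠
      proc (treeG (col s m) (FF s m) R) (Big Φ (UU s m 0) hΦ) (n + 1) := by
  intro heq
  set T := treeG (col s m) (FF s m) R with hT
  set G := proc T (Big Φ (UU s m 0) hΦ) n with hG
  have hst : step T G = G := by
    rw [hG, ← proc_succ, ← heq]
  have hle : Big Φ (UU s m 0) hΦ ≤ G := le_proc _ _ _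
  have hup : G ≤ Big Φ (UU s m n) hΦ := proc_le_Big hΦ hs R n
  have h0 : UU s m 0 ≤ G.comap (main Φ) := by
    intro x y h
    exact hle ((Big_adj_hub hΦ _ _ _).2 (Or.inl ⟨rfl, rfl, h⟩))
  have h1 := closure_complete hs h0 (fun x y hxy h => stable_rule hΦ _ _ R G hle hst hxy h) m
    (by omega) 0
  have h2 := (Big_adj_hub hΦ _ _ _).1 (hup h1)
  rcases h2 with ⟨-, -, h2⟩ | ⟨-, ⟨-, h2⟩ | ⟨h2, -⟩⟩
  · rcases h2 with h2 | h2
    · simp only at h2
      omega
    · simp only at h2
      unfold tm at h2
      obtain ⟨m', rfl⟩ : ∃ m', m = m' + 1 := ⟨m - 1, by omega⟩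
      have e1 : s + 1 + (m' + 1) - (s + 2) = m' := by omega
      rw [e1] at h2
      rw [Nat.succ_mul] at hn
      omega
  · exact absurd rfl h2
  · exact absurd rfl h2

/-! ### The tree -/

/-- The parent function of the forest. -/
def parX (s m : ℕ) : X s m → Option (X s m)
  | .inl i => if i.val = 0 then some (.inl ⟨s + 1, by omega⟩)
      else if h : i.val - 1 < s then some (.inr (.inr ⟨i.val - 1, h⟩)) else none
  | .inr (.inl b) => if b = 0 then some (.inl ⟨s, by omega⟩) else some (.inl ⟨s + 1, by omega⟩)
  | .inr (.inr j) => some (.inl ⟨j.val, by omega⟩)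

/-- The rank function of the forest. -/
def rkX (s m : ℕ) : X s m → ℕ
  | .inl i => if i.val ≤ s then 2 * i.val + 1 else 0
  | .inr (.inl b) => if b = 0 then 2 * s + 2 else 1
  | .inr (.inr j) => 2 * j.val + 2

theorem tree_isTree (s m : ℕ) :
    (treeG (col s m) (FF s m) {x | parX s m x = none}).IsTree := by
  apply treeG_isTree (FF s m) _ (parX s m) (rkX s m)
  · have key1 : ∀ (i : Fin (s + 2 + m)) (b : Fin 3),
        ((i.val = s ∧ b = 0) ∨ (i.val = s + 1 ∧ b ≠ 0)) ↔
          parX s m (.inr (.inl b)) = some (.inl i) := by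
      intro i b
      simp only [parX]
      by_cases hb : b = 0
      · simp only [hb, and_true, ne_eq, not_true, and_false, or_false, if_true, Option.some.injEq,
          Sum.inl.injEq, Fin.ext_iff]
        exact eq_comm
      · simp only [hb, and_false, ne_eq, not_false_iff, and_true, false_or, if_false,
          Option.some.injEq, Sum.inl.injEq, Fin.ext_iff]
        exact eq_comm
    have key2 : ∀ (i : Fin (s + 2 + m)) (b : Fin 3), parX s m (.inl i) ≠ some (.inr (.inl b)) := by
      intro i b
      simp only [parX]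
      split_ifs <;> simp
    have key3 : ∀ (i : Fin (s + 2 + m)) (j : Fin s), (i.val = j.val ∨ i.val = j.val + 1) ↔
        (parX s m (.inl i) = some (.inr (.inr j)) ∨ parX s m (.inr (.inr j)) = some (.inl i)) := by
      intro i j
      have hj := j.isLt
      simp only [parX]
      split_ifs with h1 h2
      · simp only [Option.some.injEq, Sum.inl.injEq, Fin.ext_iff, reduceCtorEq, false_or]
        omega
      · simp only [Option.some.injEq, Sum.inl.injEq, Sum.inr.injEq, Fin.ext_iff]
        omega
      · simp only [Option.some.injEq, Sum.inl.injEq, Fin.ext_iff, reduceCtorEq, false_or]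
        omega
    have key4 : ∀ (i k : Fin (s + 2 + m)), (i.val = 0 ∧ k.val = s + 1) ↔
        parX s m (.inl i) = some (.inl k) := by
      intro i k
      simp only [parX]
      split_ifs with h1 h2
      · simp only [Option.some.injEq, Sum.inl.injEq, Fin.ext_iff]
        omega
      · simp only [Option.some.injEq, reduceCtorEq, iff_false]
        omega
      · simp only [reduceCtorEq, iff_false]
        omega
    rintro (i | i | i) (k | k | k)
    · show ((i.val = 0 ∧ k.val = s + 1) ∨ (k.val = 0 ∧ i.val = s + 1)) ↔ _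
      rw [key4, key4]
    · show ((i.val = s ∧ k = 0) ∨ (i.val = s + 1 ∧ k ≠ 0)) ↔ _
      rw [key1]
      constructor
      · exact Or.inr
      · rintro (h | h)
        · exact absurd h (key2 i k)
        · exact h
    · show (i.val = k.val ∨ i.val = k.val + 1) ↔ _
      exact key3 i k
    · show ((k.val = s ∧ i = 0) ∨ (k.val = s + 1 ∧ i ≠ 0)) ↔ _
      rw [key1]
      constructor
      · exact Or.inl
      · rintro (h | h)
        · exact h
        · exact absurd h (key2 k i)
    · show False ↔ _
      simp only [parX, false_iff]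
      split_ifs <;> simp
    · show False ↔ _
      simp only [parX, false_iff]
      split_ifs <;> simp
    · show (k.val = i.val ∨ k.val = i.val + 1) ↔ _
      rw [key3 k i]
      exact or_comm
    · show False ↔ _
      simp only [parX, false_iff]
      split_ifs <;> simp
    · show False ↔ _
      simp [parX]
  · intro x
    rfl
  · rintro (i | i | i) y h
    · simp only [parX] at h
      split_ifs at h with h1 h2
      · simp only [Option.some.injEq] at h
        rw [← h]
        simp only [rkX, h1]
        rw [if_neg (by omega), if_pos (by omega)]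
        omega
      · simp only [Option.some.injEq] at h
        rw [← h]
        simp only [rkX]
        rw [if_pos (by omega)]
        omega
    · simp only [parX] at h
      split_ifs at h with h1
      · simp only [Option.some.injEq] at h
        rw [← h]
        simp only [rkX, h1, if_true, le_refl]
        omega
      · simp only [Option.some.injEq] at h
        rw [← h]
        simp only [rkX, h1, if_false]
        rw [if_neg (by omega)]
        omega
    · simp only [parX, Option.some.injEq] at h
      rw [← h]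
      have := i.isLt
      simp only [rkX]
      rw [if_pos (by omega)]
      omega

theorem card_VT (s m : ℕ) :
    Fintype.card (VT (col s m)) = 16 * m + 4 * s ^ 2 + 44 * s + 105 := by
  rw [Fintype.card_option, Fintype.card_prod, Fintype.card_sigma, Fintype.card_fin]
  have h1 : ∑ x : X s m, Fintype.card (Fin (col s m x + 1)) =
      4 * m + s ^ 2 + 11 * s + 26 := by
    simp only [Fintype.card_fin]
    rw [Fintype.sum_sum_type, Fintype.sum_sum_type]
    simp only [col, Finset.sum_const, Finset.card_univ, smul_eq_mul, Fintype.card_fin]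
    have h2 : ∑ j : Fin s, (7 + 2 * j.val + 1) = 8 * s + s * (s - 1) := by
      rw [Fin.sum_univ_eq_sum_range (fun j => 7 + 2 * j + 1) s]
      have h3 : ∀ j ∈ Finset.range s, 7 + 2 * j + 1 = 8 + j * 2 := by
        intro j _; omega
      rw [Finset.sum_congr rfl h3, Finset.sum_add_distrib, ← Finset.sum_mul,
        Finset.sum_range_id_mul_two]
      simp
      ring
    rw [h2]
    rcases s with _ | s
    · simp; omega
    · simp only [Nat.add_sub_cancel]
      ring
  rw [h1]
  ring

theorem newCopy_congr {V W W' : Type} {H : SimpleGraph W} {H' : SimpleGraph W'} (e : H ≃g H')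
    {G : SimpleGraph V} {u v : V} (h : NewCopy H' G u v) : NewCopy H G u v := by
  obtain ⟨φ, hφ, h1, a, b, hab, h2⟩ := h
  refine ⟨φ ∘ e, hφ.comp e.injective, fun x y hxy => h1 _ _ (e.map_adj_iff.2 hxy),
    e.symm a, e.symm b, e.symm.map_adj_iff.2 hab, ?_⟩
  simpa using h2

theorem step_congr {V W W' : Type} [Fintype V] {H : SimpleGraph W} {H' : SimpleGraph W'}
    (e : H ≃g H') (G : SimpleGraph V) : step H G = step H' G := by
  ext u v
  rw [step_adj, step_adj]
  constructor
  · rintro (h | ⟨h1, h2, h3⟩)
    · exact Or.inl h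
    · exact Or.inr ⟨h1, h2, newCopy_congr e.symm h3⟩
  · rintro (h | ⟨h1, h2, h3⟩)
    · exact Or.inl h
    · exact Or.inr ⟨h1, h2, newCopy_congr e h3⟩

theorem proc_congr {V W W' : Type} [Fintype V] {H : SimpleGraph W} {H' : SimpleGraph W'}
    (e : H ≃g H') (G : SimpleGraph V) (i : ℕ) : proc H G i = proc H' G i := by
  induction i with
  | zero => rfl
  | succ i ih => rw [proc_succ, proc_succ, ih, step_congr e]

/-- For `s, m ≥ 1` there is a tree on `t = 16m + 4s² + 44s + 105` vertices with maximum running
time at least `m (s+1)` for all `n ≥ t`. -/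
theorem exists_slow_tree (s m : ℕ) (hs : 0 < s) (hm : 0 < m) :
    ∃ T : SimpleGraph (Fin (16 * m + 4 * s ^ 2 + 44 * s + 105)), T.IsTree ∧
      ∀ n, 16 * m + 4 * s ^ 2 + 44 * s + 105 ≤ n → m * (s + 1) ≤ maxRunTime T n := by
  classical
  set t := 16 * m + 4 * s ^ 2 + 44 * s + 105 with ht
  let e : VT (col s m) ≃ Fin t := Fintype.equivFinOfCardEq (by rw [card_VT])
  let T0 := treeG (col s m) (FF s m) {x | parX s m x = none}
  let T : SimpleGraph (Fin t) := T0.map e.toEmbedding
  let f : T0 ≃g T := SimpleGraph.Iso.map e T0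
  refine ⟨T, f.isTree_iff.1 (tree_isTree s m), ?_⟩
  intro n hn
  let Φ : VT (col s m) → Fin n := fun τ => Fin.castLE hn (e τ)
  have hΦ : Function.Injective Φ := (Fin.castLE_injective hn).comp e.injective
  have h1 : m * (s + 1) ≤ runTime T (Big Φ (UU s m 0) hΦ) := by
    apply le_runTime
    · intro i hi
      rw [← proc_congr f, ← proc_congr f]
      exact not_stable hs hm hΦ _ i hi
    · exact exists_stable _ _
  refine h1.trans ?_
  exact le_ciSup (f := fun G : SimpleGraph (Fin n) => runTime T G)
    (Set.finite_range _).bddAbove (Big Φ (UU s m 0) hΦ)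

theorem le_MStar (t N : ℕ) (T : SimpleGraph (Fin t)) (hT : T.IsTree)
    (h : ∀ n, t ≤ n → N ≤ maxRunTime T n) : (N : ℕ∞) ≤ MStar t := by
  unfold MStar
  refine le_trans ?_ (le_iSup _ (⟨T, hT⟩ : {T : SimpleGraph (Fin t) // T.IsTree}))
  refine le_trans ?_ Filter.liminf_le_limsup
  refine Filter.le_liminf_of_le (by isBoundedDefault) ?_
  filter_upwards [Filter.eventually_ge_atTop t] with n hn
  exact_mod_cast h n hn

end

end Pool.Agent.Q76.TB
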