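import Pool.Agent.Q76.TB.Stable

/-!
# Tree bootstrap percolation: the slow coloured process
-/

namespace Pool.Agent.Q76.TB

open SimpleGraph

/-- Main vertices: `s + 2 + m` items, three marks, `s` pins. -/
abbrev X (s m : ℕ) : Type := Fin (s + 2 + m) ⊕ (Fin 3 ⊕ Fin s)

/-- Number of private leaves. -/
def col (s m : ℕ) : X s m → ℕ
  | .inl _ => 3
  | .inr (.inl _) => 5
  | .inr (.inr j) => 7 + 2 * j.val

/-- The forest on the main vertices. Items `0, …, s` form with the pins the path
`0 - g 0 - 1 - g 1 - ⋯ - g (s-1) - s`; item `s` is joined to mark `0`, item `s+1` to item `0` and to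
the marks `1` and `2`. -/
def FF (s m : ℕ) : SimpleGraph (X s m) where
  Adj x y := match x, y with
    | .inl i, .inl k => (i.val = 0 ∧ k.val = s + 1) ∨ (k.val = 0 ∧ i.val = s + 1)
    | .inl i, .inr (.inl b) => (i.val = s ∧ b = 0) ∨ (i.val = s + 1 ∧ b ≠ 0)
    | .inr (.inl b), .inl i => (i.val = s ∧ b = 0) ∨ (i.val = s + 1 ∧ b ≠ 0)
    | .inl i, .inr (.inr j) => i.val = j.val ∨ i.val = j.val + 1
    | .inr (.inr j), .inl i => i.val = j.val ∨ i.val = j.val + 1
    | .inr _, .inr _ => False
  symm := ⟨by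
    rintro (i | b | j) (k | b' | j') h
    · exact h.symm
    · exact h
    · exact h
    · exact h
    · exact h
    · exact h
    · exact h
    · exact h
    · exact h⟩
  loopless := ⟨by
    rintro (i | b | j) h
    · rcases h with h | h <;> omega
    · exact h
    · exact h⟩

/-- Starting time of item `i`. -/
def tm (s i : ℕ) : ℕ := (i - (s + 2)) * (s + 1)

/-- Item `i` is a completed item from the start, or time `n` is at least `c` after its start. -/
def PP (s i c n : ℕ) : Prop := i ≤ s + 1 ∨ tm s i + c ≤ n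

/-- An upper bound for the coloured graph at time `n`. -/
def UU (s m n : ℕ) : SimpleGraph (X s m) where
  Adj x y := match x, y with
    | .inl i, .inl k => i ≠ k ∧ ((k.val = i.val + 1 ∧ s + 1 ≤ i.val) ∨
        (i.val = k.val + 1 ∧ s + 1 ≤ k.val) ∨ (PP s i.val 2 n ∧ PP s k.val 2 n))
    | .inl i, .inr (.inl _) => PP s i.val (s + 1) n
    | .inr (.inl _), .inl i => PP s i.val (s + 1) n
    | .inl i, .inr (.inr j) => PP s i.val (j.val + 1) n
    | .inr (.inr j), .inl i => PP s i.val (j.val + 1) n
    | .inr _, .inr _ => False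
  symm := ⟨by
    rintro (i | b | j) (k | b' | j') h
    · exact ⟨h.1.symm, by tauto⟩
    · exact h
    · exact h
    · exact h
    · exact h
    · exact h
    · exact h
    · exact h
    · exact h⟩
  loopless := ⟨by
    rintro (i | b | j) h
    · exact h.1 rfl
    · exact h
    · exact h⟩

theorem PP_mono {s i c n c' n' : ℕ} (h : PP s i c n) (hc : c' + n ≤ c + n') : PP s i c' n' := by
  rcases h with h | h
  · exact Or.inl h
  · right; omega

theorem UU_mono {s m n n' : ℕ} (h : n ≤ n') : UU s m n ≤ UU s m n' := by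
  rintro (i | b | j) (k | b' | j') h1
  · refine ⟨h1.1, ?_⟩
    rcases h1.2 with h2 | h2 | ⟨h2, h3⟩
    · exact Or.inl h2
    · exact Or.inr (Or.inl h2)
    · exact Or.inr (Or.inr ⟨PP_mono h2 (by omega), PP_mono h3 (by omega)⟩)
  · exact PP_mono h1 (by omega)
  · exact PP_mono h1 (by omega)
  · exact PP_mono h1 (by omega)
  · exact h1
  · exact h1
  · exact PP_mono h1 (by omega)
  · exact h1
  · exact h1

theorem Big_mono {Y V : Type} {a : Y → ℕ} {Φ : VT a → V} (hΦ : Function.Injective Φ)
    {J J' : SimpleGraph Y} (h : J ≤ J') : Big Φ J hΦ ≤ Big Φ J' hΦ := by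
  rintro u v (h1 | h1 | ⟨p, q, h1, h2, h3⟩)
  · exact Or.inl h1
  · exact Or.inr (Or.inl h1)
  · refine Or.inr (Or.inr ⟨p, q, h1, h2, ?_⟩)
    rcases h3 with ⟨h4, h5, h6⟩ | h4
    · exact Or.inl ⟨h4, h5, h h6⟩
    · exact Or.inr h4

theorem tm_succ {s i : ℕ} (h : s + 2 ≤ i) : tm s (i + 1) = tm s i + (s + 1) := by
  unfold tm
  obtain ⟨d, rfl⟩ := Nat.exists_eq_add_of_le h
  have h1 : s + 2 + d + 1 - (s + 2) = d + 1 := by omega
  have h2 : s + 2 + d - (s + 2) = d := by omega
  rw [h1, h2, Nat.succ_mul]

theorem tm_start (s : ℕ) : tm s (s + 1 + 1) = 0 := by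
  unfold tm
  simp

section
variable {s m : ℕ}

/-- The invariant: the image of the new edge is in the next graph. -/
theorem key (hs : 0 < s) (n : ℕ) (ψ : Equiv.Perm (X s m)) (hψ : ∀ z, col s m (ψ z) = col s m z)
    (b c : X s m) (hbc : (FF s m).Adj b c)
    (hom : ∀ b' c', (FF s m).Adj b' c' → s(b', c') ≠ s(b, c) → (UU s m n).Adj (ψ b') (ψ c')) :
    (UU s m (n + 1)).Adj (ψ b) (ψ c) := by
  -- the form of the permutation
  have hw : ∀ i, ∃ i', ψ (.inl i) = .inl i' := by
    intro i
    have := hψ (.inl i)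
    rcases h : ψ (.inl i) with i' | b' | j'
    · exact ⟨i', rfl⟩
    · rw [h] at this; simp [col] at this
    · rw [h] at this; simp [col] at this; omega
  have hb : ∀ i, ∃ i', ψ (.inr (.inl i)) = .inr (.inl i') := by
    intro i
    have := hψ (.inr (.inl i))
    rcases h : ψ (.inr (.inl i)) with i' | b' | j'
    · rw [h] at this; simp [col] at this
    · exact ⟨b', rfl⟩
    · rw [h] at this; simp [col] at this; omega
  have hg : ∀ j, ψ (.inr (.inr j)) = .inr (.inr j) := by
    intro j
    have := hψ (.inr (.inr j))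
    rcases h : ψ (.inr (.inr j)) with i' | b' | j'
    · rw [h] at this; simp [col] at this; omega
    · rw [h] at this; simp [col] at this; omega
    · rw [h] at this; simp [col] at this
      rw [Fin.ext this]
  choose σ hσ using hw
  choose β hβ using hb
  -- indices
  have i0 : 0 < s + 2 + m := by omega
  have is : s < s + 2 + m := by omega
  have is1 : s + 1 < s + 2 + m := by omega
  -- item - pin
  have kwg : ∀ (i : Fin (s + 2 + m)) (j : Fin s), (FF s m).Adj (.inl i) (.inr (.inr j)) →
      (∀ b' c', (FF s m).Adj b' c' → s(b', c') ≠ s(.inl i, .inr (.inr j)) →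
        (UU s m n).Adj (ψ b') (ψ c')) → PP s (σ i).val (j.val + 1) (n + 1) := by
    intro i j hij hom
    rcases hij with hij | hij
    · -- `i = j`
      rcases Nat.eq_zero_or_pos j.val with hj0 | hj0
      · -- item `0`, pin `0`
        have e1 := hom (.inl i) (.inl ⟨s + 1, is1⟩) (Or.inl ⟨by omega, rfl⟩) (by simp)
        have e2 := hom (.inl ⟨s + 1, is1⟩) (.inr (.inl 1)) (Or.inr ⟨rfl, by decide⟩) (by simp)
        rw [hσ, hσ] at e1
        rw [hσ, hβ] at e2
        have e3 : PP s (σ ⟨s + 1, is1⟩).val (s + 1) n := e2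
        obtain ⟨-, e4 | e4 | ⟨e4, -⟩⟩ := e1
        · -- `σ (s+1) = σ i + 1`
          rcases e3 with e3 | e3
          · left; omega
          · right
            unfold tm at *
            have : ((σ i).val - (s + 2)) * (s + 1) ≤
                ((σ ⟨s + 1, is1⟩).val - (s + 2)) * (s + 1) :=
              Nat.mul_le_mul_right _ (by omega)
            omega
        · -- `σ i = σ (s+1) + 1`
          rcases e3 with e3 | e3
          · right
            have : (σ i).val = s + 1 + 1 := by omega
            rw [this, tm_start]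
            omega
          · by_cases hle : (σ ⟨s + 1, is1⟩).val ≤ s + 1
            · right
              have : (σ i).val = s + 1 + 1 := by omega
              rw [this, tm_start]
              omega
            · right
              rw [e4.1, tm_succ (by omega)]
              omega
        · exact PP_mono e4 (by omega)
      · -- item `j`, previous pin `j - 1`
        have hj1 : j.val - 1 < s := by omega
        have e1 := hom (.inl i) (.inr (.inr ⟨j.val - 1, hj1⟩))
          (Or.inr (by simp only; omega)) (by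
            intro h
            rw [Sym2.eq_iff] at h
            rcases h with ⟨-, h⟩ | ⟨h, -⟩
            · simp only [Sum.inr.injEq] at h
              have := congrArg Fin.val h
              simp only at this
              omega
            · exact absurd h (by simp))
        rw [hσ, hg] at e1
        have e3 : PP s (σ i).val (j.val - 1 + 1) n := e1
        exact PP_mono e3 (by omega)
    · -- `i = j + 1`
      by_cases hj : j.val + 1 < s
      · have e1 := hom (.inl i) (.inr (.inr ⟨j.val + 1, hj⟩))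
          (Or.inl hij) (by
            intro h
            rw [Sym2.eq_iff] at h
            rcases h with ⟨-, h⟩ | ⟨h, -⟩
            · simp only [Sum.inr.injEq] at h
              have := congrArg Fin.val h
              simp only at this
              omega
            · exact absurd h (by simp))
        rw [hσ, hg] at e1
        have e3 : PP s (σ i).val (j.val + 1 + 1) n := e1
        exact PP_mono e3 (by omega)
      · have e1 := hom (.inl i) (.inr (.inl 0)) (Or.inl ⟨by omega, rfl⟩) (by simp)
        rw [hσ, hβ] at e1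
        have e3 : PP s (σ i).val (s + 1) n := e1
        exact PP_mono e3 (by omega)
  -- item - mark
  have kwb : ∀ (i : Fin (s + 2 + m)) (j : Fin 3), (FF s m).Adj (.inl i) (.inr (.inl j)) →
      (∀ b' c', (FF s m).Adj b' c' → s(b', c') ≠ s(.inl i, .inr (.inl j)) →
        (UU s m n).Adj (ψ b') (ψ c')) → PP s (σ i).val (s + 1) (n + 1) := by
    intro i j hij hom
    rcases hij with ⟨hi, -⟩ | ⟨hi, hj⟩
    · have e1 := hom (.inl i) (.inr (.inr ⟨s - 1, by omega⟩))
        (Or.inr (by simp only; omega)) (by simp)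
      rw [hσ, hg] at e1
      have e3 : PP s (σ i).val (s - 1 + 1) n := e1
      exact PP_mono e3 (by omega)
    · obtain ⟨j', hj', hjj⟩ := (by decide : ∀ j : Fin 3, j ≠ 0 → ∃ j' : Fin 3, j' ≠ 0 ∧ j' ≠ j) j hj
      have e1 := hom (.inl i) (.inr (.inl j')) (Or.inr ⟨hi, hj'⟩) (by
        intro h
        rw [Sym2.eq_iff] at h
        rcases h with ⟨-, h⟩ | ⟨h, -⟩
        · simp only [Sum.inr.injEq, Sum.inl.injEq] at h
          exact hjj h
        · exact absurd h (by simp))
      rw [hσ, hβ] at e1
      have e3 : PP s (σ i).val (s + 1) n := e1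
      exact PP_mono e3 (by omega)
  -- item - item
  have kww : ∀ (i k : Fin (s + 2 + m)), i.val = 0 → k.val = s + 1 →
      (∀ b' c', (FF s m).Adj b' c' → s(b', c') ≠ s(.inl i, .inl k) →
        (UU s m n).Adj (ψ b') (ψ c')) → (UU s m (n + 1)).Adj (.inl (σ i)) (.inl (σ k)) := by
    intro i k hi hk hom
    refine ⟨?_, Or.inr (Or.inr ⟨?_, ?_⟩)⟩
    · intro h
      have h2 : ψ (.inl i) = ψ (.inl k) := by rw [hσ, hσ, h]
      have h3 := ψ.injective h2
      simp only [Sum.inl.injEq] at h3
      rw [h3] at hi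
      omega
    · have e1 := hom (.inl i) (.inr (.inr ⟨0, hs⟩)) (Or.inl hi) (by simp)
      rw [hσ, hg] at e1
      have e3 : PP s (σ i).val (0 + 1) n := e1
      exact PP_mono e3 (by omega)
    · have e1 := hom (.inl k) (.inr (.inl 1)) (Or.inr ⟨hk, by decide⟩) (by simp)
      rw [hσ, hβ] at e1
      have e3 : PP s (σ k).val (s + 1) n := e1
      exact PP_mono e3 (by omega)
  have hswap : ∀ b c b' c' : X s m, s(b', c') ≠ s(b, c) → s(b', c') ≠ s(c, b) := by
    intro b c b' c' h
    rwa [Sym2.eq_swap (a := c) (b := b)]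
  rcases b with i | i | i <;> rcases c with k | k | k
  · rw [hσ, hσ]
    rcases hbc with ⟨h1, h2⟩ | ⟨h1, h2⟩
    · exact kww i k h1 h2 hom
    · exact (kww k i h1 h2 (fun b' c' h h' => hom b' c' h (hswap _ _ _ _ h'))).symm
  · rw [hσ, hβ]
    exact kwb i k hbc hom
  · rw [hσ, hg]
    exact kwg i k hbc hom
  · rw [hσ, hβ]
    exact kwb k i hbc (fun b' c' h h' => hom b' c' h (hswap _ _ _ _ h'))
  · exact absurd hbc (by simp [FF])
  · exact absurd hbc (by simp [FF])
  · rw [hσ, hg]
    exact kwg k i hbc (fun b' c' h h' => hom b' c' h (hswap _ _ _ _ h'))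
  · exact absurd hbc (by simp [FF])
  · exact absurd hbc (by simp [FF])

/-- The coloured rule leads from `UU n` into `UU (n+1)`. -/
theorem UU_rule (hs : 0 < s) (n : ℕ) {x y : X s m}
    (h : ColNew (col s m) (FF s m) (UU s m n) x y) : (UU s m (n + 1)).Adj x y := by
  obtain ⟨ψ, hψ, hom, b, c, hbc, he⟩ := h
  have h1 : (UU s m (n + 1)).Adj (ψ b) (ψ c) := by
    apply key hs n ψ hψ b c hbc
    intro b' c' h2 h3
    rcases hom b' c' h2 with h4 | h4
    · exact h4
    · exfalso
      apply h3
      rw [← he, Sym2.eq_iff] at h4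
      rw [Sym2.eq_iff]
      rcases h4 with ⟨e1, e2⟩ | ⟨e1, e2⟩
      · exact Or.inl ⟨ψ.injective e1, ψ.injective e2⟩
      · exact Or.inr ⟨ψ.injective e1, ψ.injective e2⟩
  rw [Sym2.eq_iff] at he
  rcases he with ⟨e1, e2⟩ | ⟨e1, e2⟩
  · rwa [e1, e2] at h1
  · rw [e1, e2] at h1
    exact h1.symm

theorem col_ge (x : X s m) : 3 ≤ col s m x := by
  rcases x with i | i | i
  · exact le_rfl
  · show 3 ≤ 5
    omega
  · show 3 ≤ 7 + 2 * i.val
    omega

theorem col_odd (x : X s m) : Odd (col s m x) := by
  rcases x with i | i | i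
  · exact ⟨1, rfl⟩
  · exact ⟨2, rfl⟩
  · exact ⟨3 + i.val, by show 7 + 2 * i.val = _; omega⟩

/-- One round of the tree process leads from the `n`-th bound to the next one. -/
theorem Big_step {V : Type} [Fintype V] {Φ : VT (col s m) → V} (hΦ : Function.Injective Φ)
    (hs : 0 < s) (R : Set (X s m)) (n : ℕ) :
    step (treeG (col s m) (FF s m) R) (Big Φ (UU s m n) hΦ) ≤ Big Φ (UU s m (n + 1)) hΦ := by
  intro u v h
  rw [step_adj] at h
  rcases h with h | ⟨hne, hn, h⟩
  · exact Big_mono hΦ (UU_mono (by omega)) h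
  · obtain ⟨x, y, rfl, rfl, -, -, hc⟩ := colNew_of_newCopy hΦ col_ge col_odd _ _ R hne hn h
    exact (Big_adj_hub hΦ _ _ _).2 (Or.inl ⟨rfl, rfl, UU_rule hs n hc⟩)

theorem proc_le_Big {V : Type} [Fintype V] {Φ : VT (col s m) → V} (hΦ : Function.Injective Φ)
    (hs : 0 < s) (R : Set (X s m)) (n : ℕ) :
    proc (treeG (col s m) (FF s m) R) (Big Φ (UU s m 0) hΦ) n ≤ Big Φ (UU s m n) hΦ := by
  induction n with
  | zero => exact le_rfl
  | succ n ih =>
    rw [proc_succ]
    exact (step_mono _ ih).trans (Big_step hΦ hs R n)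

end

end Pool.Agent.Q76.TB
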