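import Pool.Agent.Q76.TB.Defs

/-!
# Tree bootstrap percolation: reduction to a coloured spanning process

`X` is a finite set of main vertices; `a x` (odd, at least 3) is the number of private leaves of
`x`.  `K a` is the set of hubs: the main vertices together with their private leaves.
The tree has three further leaves at each hub and one connecting vertex.
-/

namespace Pool.Agent.Q76.TB

open SimpleGraph

section
variable {X : Type} (a : X → ℕ)

/-- The hubs: `⟨x, 0⟩` is the main vertex `x`, and `⟨x, i⟩` with `i ≠ 0` its private leaves. -/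
abbrev K : Type := Σ x : X, Fin (a x + 1)

/-- The graph on the hubs: a graph on the main vertices plus the private leaves. -/
def cor (J : SimpleGraph X) : SimpleGraph (K a) where
  Adj p q := (p.2.val = 0 ∧ q.2.val = 0 ∧ J.Adj p.1 q.1) ∨
    (p.1 = q.1 ∧ ((p.2.val = 0 ∧ q.2.val ≠ 0) ∨ (p.2.val ≠ 0 ∧ q.2.val = 0)))
  symm := ⟨by
    rintro p q (⟨h1, h2, h3⟩ | ⟨h1, h2⟩)
    · exact Or.inl ⟨h2, h1, h3.symm⟩
    · exact Or.inr ⟨h1.symm, by tauto⟩⟩
  loopless := ⟨by
    rintro p (⟨h1, h2, h3⟩ | ⟨h1, h2⟩)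
    · exact h3.ne rfl
    · tauto⟩

/-- The vertices of the tree: the connecting vertex `none`, the hubs `some (p, 0)` and the leaves
`some (p, i)`, `i ≠ 0`, at the hubs. -/
abbrev VT : Type := Option (K a × Fin 4)

/-- The tree: `F` on the main vertices, private leaves, three leaves at each hub, and the
connecting vertex joined to the main vertices in `R`. -/
def treeG (F : SimpleGraph X) (R : Set X) : SimpleGraph (VT a) where
  Adj s t := match s, t with
    | none, none => False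
    | none, some (p, i) => i = 0 ∧ p.2.val = 0 ∧ p.1 ∈ R
    | some (p, i), none => i = 0 ∧ p.2.val = 0 ∧ p.1 ∈ R
    | some (p, i), some (q, j) => (i = 0 ∧ j = 0 ∧ (cor a F).Adj p q) ∨
        (p = q ∧ ((i = 0 ∧ j ≠ 0) ∨ (i ≠ 0 ∧ j = 0)))
  symm := ⟨by
    rintro (_ | ⟨p, i⟩) (_ | ⟨q, j⟩) h
    · exact h
    · exact h
    · exact h
    · rcases h with ⟨h1, h2, h3⟩ | ⟨h1, h2⟩
      · exact Or.inl ⟨h2, h1, h3.symm⟩
      · exact Or.inr ⟨h1.symm, by tauto⟩⟩
  loopless := ⟨by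
    rintro (_ | ⟨p, i⟩) h
    · exact h
    · rcases h with ⟨h1, h2, h3⟩ | ⟨h1, h2⟩
      · exact h3.ne rfl
      · tauto⟩

variable {a}
variable {V : Type} (Φ : VT a → V)

/-- The hubs in the host vertex set. -/
def hub (p : K a) : V := Φ (some (p, 0))

/-- The host vertex of a main vertex. -/
def main (x : X) : V := hub Φ (⟨x, 0⟩ : K a)

/-- Being a hub. -/
def IsHub (u : V) : Prop := ∃ p : K a, u = hub Φ p

/-- The host graph: all hub/non-hub pairs, and the graph `cor a J` on the hubs. -/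
def Big (J : SimpleGraph X) (hΦ : Function.Injective Φ) : SimpleGraph V where
  Adj u v := (IsHub Φ u ∧ ¬ IsHub Φ v) ∨ (¬ IsHub Φ u ∧ IsHub Φ v) ∨
    ∃ p q : K a, u = hub Φ p ∧ v = hub Φ q ∧ (cor a J).Adj p q
  symm := ⟨by
    rintro u v (h | h | ⟨p, q, h1, h2, h3⟩)
    · exact Or.inr (Or.inl h.symm)
    · exact Or.inl h.symm
    · exact Or.inr (Or.inr ⟨q, p, h2, h1, h3.symm⟩)⟩
  loopless := ⟨by
    rintro u (⟨h1, h2⟩ | ⟨h1, h2⟩ | ⟨p, q, h1, h2, h3⟩)
    · exact h2 h1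
    · exact h1 h2
    · rw [h1] at h2
      have h4 := hΦ h2
      simp only [Option.some.injEq, Prod.mk.injEq, and_true] at h4
      exact h3.ne h4⟩

variable {Φ}

theorem hub_injective (hΦ : Function.Injective Φ) : Function.Injective (hub Φ) := by
  intro p q h
  have h4 := hΦ h
  simpa using h4

theorem Big_adj_hub (hΦ : Function.Injective Φ) (J : SimpleGraph X) (p q : K a) :
    (Big Φ J hΦ).Adj (hub Φ p) (hub Φ q) ↔ (cor a J).Adj p q := by
  constructor
  · rintro (⟨-, h⟩ | ⟨h, -⟩ | ⟨p', q', h1, h2, h3⟩)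
    · exact absurd ⟨q, rfl⟩ h
    · exact absurd ⟨p, rfl⟩ h
    · rw [hub_injective hΦ h1, hub_injective hΦ h2]
      exact h3
  · intro h
    exact Or.inr (Or.inr ⟨p, q, rfl, rfl, h⟩)

/-- The coloured spanning version of `NewCopy`. -/
def ColNew (a : X → ℕ) (F J : SimpleGraph X) (x y : X) : Prop :=
  ∃ ψ : Equiv.Perm X, (∀ z, a (ψ z) = a z) ∧
    (∀ b c, F.Adj b c → J.Adj (ψ b) (ψ c) ∨ s(ψ b, ψ c) = s(x, y)) ∧
    ∃ b c, F.Adj b c ∧ s(ψ b, ψ c) = s(x, y)

/-! ### From the tree to the hubs -/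

theorem hubs_of_newCopy [Fintype X] (hΦ : Function.Injective Φ) (F J : SimpleGraph X) (R : Set X)
    {u v : V} (φ : VT a → V) (hφ : Function.Injective φ)
    (h1 : ∀ s t, (treeG a F R).Adj s t → (Big Φ J hΦ).Adj (φ s) (φ t) ∨ s(φ s, φ t) = s(u, v)) :
    (∀ p : K a, IsHub Φ (φ (some (p, 0)))) ∧
      (∀ τ : VT a, IsHub Φ (φ τ) → ∃ p : K a, τ = some (p, 0)) := by
  classical
  have hstar : ∀ (p : K a) (i : Fin 4), i ≠ 0 → ¬ IsHub Φ (φ (some (p, 0))) →
      ¬ IsHub Φ (φ (some (p, i))) → s(φ (some (p, 0)), φ (some (p, i))) = s(u, v) := by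
    intro p i hi h2 h3
    rcases h1 (some (p, 0)) (some (p, i)) (Or.inr ⟨rfl, Or.inl ⟨rfl, hi⟩⟩) with h4 | h4
    · exfalso
      rcases h4 with ⟨h4, -⟩ | ⟨-, h4⟩ | ⟨p', q', h4, -, -⟩
      · exact h2 h4
      · exact h3 h4
      · exact h2 ⟨p', h4⟩
    · exact h4
  have hstar2 : ∀ (p : K a) (i j : Fin 4), i ≠ 0 → j ≠ 0 → i ≠ j →
      ¬ IsHub Φ (φ (some (p, 0))) →
      IsHub Φ (φ (some (p, i))) ∨ IsHub Φ (φ (some (p, j))) := by
    intro p i j hi hj hij h2
    by_contra hno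
    push Not at hno
    have h3 := hstar p i hi h2 hno.1
    have h4 := hstar p j hj h2 hno.2
    rw [← h4, Sym2.eq_iff] at h3
    rcases h3 with ⟨-, h5⟩ | ⟨h5, -⟩
    · have := hφ h5
      simp only [Option.some.injEq, Prod.mk.injEq, true_and] at this
      exact hij this
    · have := hφ h5
      simp only [Option.some.injEq, Prod.mk.injEq, true_and] at this
      exact hj this.symm
  -- two hub leaves at every non-hub centre
  have hstar3 : ∀ (p : K a), ¬ IsHub Φ (φ (some (p, 0))) →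
      ∃ i j : Fin 4, i ≠ j ∧ IsHub Φ (φ (some (p, i))) ∧ IsHub Φ (φ (some (p, j))) := by
    intro p h2
    have h12 := hstar2 p 1 2 (by decide) (by decide) (by decide) h2
    have h13 := hstar2 p 1 3 (by decide) (by decide) (by decide) h2
    have h23 := hstar2 p 2 3 (by decide) (by decide) (by decide) h2
    rcases h12 with h | h
    · rcases h23 with h' | h'
      · exact ⟨1, 2, by decide, h, h'⟩
      · exact ⟨1, 3, by decide, h, h'⟩
    · rcases h13 with h' | h'
      · exact ⟨1, 2, by decide, h', h⟩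
      · exact ⟨2, 3, by decide, h, h'⟩
  let S := {τ : VT a // IsHub Φ (φ τ)}
  have hg : ∀ p : K a, ∃ i : Fin 4, IsHub Φ (φ (some (p, i))) := by
    intro p
    by_cases h : IsHub Φ (φ (some (p, 0)))
    · exact ⟨0, h⟩
    · obtain ⟨i, j, -, hi, -⟩ := hstar3 p h
      exact ⟨i, hi⟩
  choose gi hgi using hg
  let g : K a → S := fun p => ⟨some (p, gi p), hgi p⟩
  have hginj : Function.Injective g := by
    intro p q h
    have := congrArg Subtype.val h
    simp only [g, Option.some.injEq, Prod.mk.injEq] at this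
    exact this.1
  let f : S → K a := fun τ => τ.2.choose
  have hf : ∀ τ : S, φ τ.1 = hub Φ (f τ) := fun τ => τ.2.choose_spec
  have hfinj : Function.Injective f := by
    intro τ τ' h
    apply Subtype.ext
    apply hφ
    rw [hf, hf, h]
  have hcard : Fintype.card (K a) = Fintype.card S :=
    le_antisymm (Fintype.card_le_of_injective g hginj) (Fintype.card_le_of_injective f hfinj)
  have hgbij : Function.Bijective g :=
    (Fintype.bijective_iff_injective_and_card g).2 ⟨hginj, hcard⟩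
  have hA : ∀ p : K a, IsHub Φ (φ (some (p, 0))) := by
    intro p
    by_contra hno
    obtain ⟨i, j, hij, hi, hj⟩ := hstar3 p hno
    obtain ⟨p', hp'⟩ := hgbij.2 ⟨_, hi⟩
    obtain ⟨q', hq'⟩ := hgbij.2 ⟨_, hj⟩
    have e1 := congrArg Subtype.val hp'
    have e2 := congrArg Subtype.val hq'
    simp only [g, Option.some.injEq, Prod.mk.injEq] at e1 e2
    apply hij
    rw [← e1.2, ← e2.2, e1.1, e2.1]
  refine ⟨hA, ?_⟩
  intro τ hτ
  obtain ⟨p, hp⟩ := hgbij.2 ⟨τ, hτ⟩
  obtain ⟨q, hq⟩ := hgbij.2 ⟨some (p, 0), hA p⟩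
  have e1 := congrArg Subtype.val hp
  have e2 := congrArg Subtype.val hq
  simp only [g, Option.some.injEq, Prod.mk.injEq] at e1 e2
  refine ⟨p, ?_⟩
  rw [← e1]
  simp only [Option.some.injEq, Prod.mk.injEq, true_and]
  rw [← e2.1]
  exact e2.2

/-- A new copy of the tree in the host graph induces a map on the hubs. -/
theorem newCopy_hub [Fintype X] (hΦ : Function.Injective Φ) (F J : SimpleGraph X) (R : Set X)
    {u v : V} (huv : u ≠ v) (hn : ¬ (Big Φ J hΦ).Adj u v)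
    (h : NewCopy (treeG a F R) (Big Φ J hΦ) u v) :
    ∃ p' q' : K a, u = hub Φ p' ∧ v = hub Φ q' ∧ p' ≠ q' ∧ ¬ (cor a J).Adj p' q' ∧
      ∃ ρ : K a → K a, Function.Injective ρ ∧
        (∀ p q, (cor a F).Adj p q → (cor a J).Adj (ρ p) (ρ q) ∨ s(ρ p, ρ q) = s(p', q')) ∧
        ∃ p q, (cor a F).Adj p q ∧ s(ρ p, ρ q) = s(p', q') := by
  classical
  obtain ⟨φ, hφ, h1, s, t, hst, h2⟩ := h
  obtain ⟨hA, hB⟩ := hubs_of_newCopy hΦ F J R φ hφ h1
  choose ρ hρ using hA
  have hρinj : Function.Injective ρ := by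
    intro p q h
    have : φ (some (p, 0)) = φ (some (q, 0)) := by rw [hρ, hρ, h]
    have := hφ this
    simpa using this
  -- the used edge joins two hubs of the tree
  have hused : ∃ p q, (cor a F).Adj p q ∧ s(hub Φ (ρ p), hub Φ (ρ q)) = s(u, v) := by
    have key : ∀ s t : VT a, s(φ s, φ t) = s(u, v) → IsHub Φ (φ s) → ¬ IsHub Φ (φ t) → False := by
      intro s t h3 h4 h5
      have h6 : (Big Φ J hΦ).Adj (φ s) (φ t) := Or.inl ⟨h4, h5⟩
      rw [Sym2.eq_iff] at h3
      rcases h3 with ⟨e1, e2⟩ | ⟨e1, e2⟩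
      · rw [e1, e2] at h6; exact hn h6
      · rw [e1, e2] at h6; exact hn h6.symm
    have hnon : ∀ (p : K a) (i : Fin 4), i ≠ 0 → ¬ IsHub Φ (φ (some (p, i))) := by
      intro p i hi h
      obtain ⟨q, hq⟩ := hB _ h
      simp only [Option.some.injEq, Prod.mk.injEq] at hq
      exact hi hq.2
    have hnone : ¬ IsHub Φ (φ none) := by
      intro h
      obtain ⟨q, hq⟩ := hB _ h
      exact absurd hq (by simp)
    rcases s with _ | ⟨p, i⟩ <;> rcases t with _ | ⟨q, j⟩
    · exact absurd hst (by simp [treeG])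
    · obtain ⟨rfl, -, -⟩ := hst
      rw [Sym2.eq_swap] at h2
      exact (key _ _ h2 ⟨_, hρ q⟩ hnone).elim
    · obtain ⟨rfl, -, -⟩ := hst
      exact (key _ _ h2 ⟨_, hρ p⟩ hnone).elim
    · rcases hst with ⟨rfl, rfl, h3⟩ | ⟨rfl, ⟨rfl, hj⟩ | ⟨hi, rfl⟩⟩
      · refine ⟨p, q, h3, ?_⟩
        rw [← hρ, ← hρ]
        exact h2
      · exact (key _ _ h2 ⟨_, hρ p⟩ (hnon p j hj)).elim
      · rw [Sym2.eq_swap] at h2
        exact (key _ _ h2 ⟨_, hρ p⟩ (hnon p i hi)).elim
  obtain ⟨p, q, hpq, h3⟩ := hused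
  have hends : ∃ p' q' : K a, u = hub Φ p' ∧ v = hub Φ q' ∧ s(ρ p, ρ q) = s(p', q') := by
    rw [Sym2.eq_iff] at h3
    rcases h3 with ⟨e1, e2⟩ | ⟨e1, e2⟩
    · exact ⟨ρ p, ρ q, e1.symm, e2.symm, rfl⟩
    · exact ⟨ρ q, ρ p, e2.symm, e1.symm, Sym2.eq_swap⟩
  obtain ⟨p', q', rfl, rfl, h4⟩ := hends
  refine ⟨p', q', rfl, rfl, fun h => huv (by rw [h]), ?_, ρ, hρinj, ?_, p, q, hpq, h4⟩
  · rwa [Big_adj_hub] at hn
  · intro b c hbc
    rcases h1 (some (b, 0)) (some (c, 0)) (Or.inl ⟨rfl, rfl, hbc⟩) with h5 | h5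
    · left
      rw [hρ, hρ, Big_adj_hub] at h5
      exact h5
    · right
      rw [hρ, hρ, Sym2.eq_iff] at h5
      rw [Sym2.eq_iff]
      rcases h5 with ⟨e1, e2⟩ | ⟨e1, e2⟩
      · exact Or.inl ⟨hub_injective hΦ e1, hub_injective hΦ e2⟩
      · exact Or.inr ⟨hub_injective hΦ e1, hub_injective hΦ e2⟩

end

end Pool.Agent.Q76.TB
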