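import Pool.Agent.Q76.TB.Color

/-!
# Tree bootstrap percolation: a stable graph is closed under the coloured rule
-/

namespace Pool.Agent.Q76.TB

open SimpleGraph

section
variable {X : Type} {a : X → ℕ} {V : Type} {Φ : VT a → V}

/-- The map of the tree induced by a colour-preserving permutation. -/
def lift (ψ : Equiv.Perm X) (hψ : ∀ z, a (ψ z) = a z) : VT a → VT a
  | none => none
  | some (p, j) => if j = 0 then some (⟨ψ p.1, Fin.cast (by rw [hψ]) p.2⟩, 0) else some (p, j)

theorem lift_hub (ψ : Equiv.Perm X) (hψ : ∀ z, a (ψ z) = a z) (p : K a) :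
    lift ψ hψ (some (p, 0)) = some (⟨ψ p.1, Fin.cast (by rw [hψ]) p.2⟩, 0) := by
  simp [lift]

theorem lift_injective (ψ : Equiv.Perm X) (hψ : ∀ z, a (ψ z) = a z) :
    Function.Injective (lift ψ hψ) := by
  rintro (_ | ⟨p, i⟩) (_ | ⟨q, j⟩) h
  · rfl
  · exfalso
    simp only [lift] at h
    split_ifs at h
  · exfalso
    simp only [lift] at h
    split_ifs at h
  · simp only [lift] at h
    split_ifs at h with h1 h2 h2
    · simp only [Option.some.injEq, Prod.mk.injEq, and_true] at h
      have e1 : ψ p.1 = ψ q.1 := congrArg Sigma.fst h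
      have e2 : p.2.val = q.2.val := by
        have := congrArg (fun r : K a => r.2.val) h
        simpa using this
      rw [K_ext (ψ.injective e1) e2, h1, h2]
    · simp only [Option.some.injEq, Prod.mk.injEq] at h
      exact absurd h.2.symm h2
    · simp only [Option.some.injEq, Prod.mk.injEq] at h
      exact absurd h.2 h1
    · exact h

theorem not_isHub (hΦ : Function.Injective Φ) {τ : VT a} (h : ∀ p : K a, τ ≠ some (p, 0)) :
    ¬ IsHub Φ (Φ τ) := by
  rintro ⟨p, hp⟩
  exact h p (hΦ hp)

/-- A graph containing the host graph and stable for the tree process is closed under the coloured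
rule. -/
theorem stable_rule [Fintype V] (hΦ : Function.Injective Φ) (F J : SimpleGraph X) (R : Set X)
    (G : SimpleGraph V) (hG : Big Φ J hΦ ≤ G) (hst : step (treeG a F R) G = G)
    {x y : X} (hxy : x ≠ y) (h : ColNew a F (G.comap (main Φ)) x y) :
    (G.comap (main Φ)).Adj x y := by
  obtain ⟨ψ, hψ, h1, b, c, hbc, h2⟩ := h
  have hmain : Function.Injective (main Φ) := by
    intro x y h
    exact congrArg Sigma.fst (hub_injective hΦ h)
  by_contra hn
  rw [SimpleGraph.comap_adj] at hn
  have hφ0 : ∀ z : X, Φ (lift ψ hψ (some ((⟨z, 0⟩ : K a), 0))) = main Φ (ψ z) := by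
    intro z
    rw [lift_hub, main, hub]
    rfl
  have hs : ∀ z w : X, s(ψ z, ψ w) = s(x, y) →
      s(main Φ (ψ z), main Φ (ψ w)) = s(main Φ x, main Φ y) := by
    intro z w h
    rw [Sym2.eq_iff] at h ⊢
    rcases h with ⟨e1, e2⟩ | ⟨e1, e2⟩
    · exact Or.inl ⟨by rw [e1], by rw [e2]⟩
    · exact Or.inr ⟨by rw [e1], by rw [e2]⟩
  apply hn
  rw [← hst, step_adj]
  right
  refine ⟨fun h => hxy (hmain h), hn, fun τ => Φ (lift ψ hψ τ),
    hΦ.comp (lift_injective ψ hψ), ?_, some (⟨b, 0⟩, 0), some (⟨c, 0⟩, 0), ?_, ?_⟩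
  · have hnone : ¬ IsHub Φ (Φ (lift ψ hψ none)) := not_isHub hΦ (by intro p; simp [lift])
    have hleaf : ∀ (p : K a) (j : Fin 4), j ≠ 0 → ¬ IsHub Φ (Φ (lift ψ hψ (some (p, j)))) := by
      intro p j hj
      apply not_isHub hΦ
      intro q
      simp [lift, hj]
    have hhub : ∀ (p : K a), IsHub Φ (Φ (lift ψ hψ (some (p, 0)))) := by
      intro p
      rw [lift_hub]
      exact ⟨_, rfl⟩
    rintro (_ | ⟨p, i⟩) (_ | ⟨q, j⟩) hst'
    · exact absurd hst' (by simp [treeG])
    · obtain ⟨rfl, -, -⟩ := hst'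
      exact Or.inl (hG (Or.inr (Or.inl ⟨hnone, hhub q⟩)))
    · obtain ⟨rfl, -, -⟩ := hst'
      exact Or.inl (hG (Or.inl ⟨hhub p, hnone⟩))
    · rcases hst' with ⟨rfl, rfl, h3⟩ | ⟨rfl, ⟨rfl, hj⟩ | ⟨hi, rfl⟩⟩
      · rcases h3 with ⟨e1, e2, h4⟩ | ⟨e1, h4⟩
        · have ep : p = ⟨p.1, 0⟩ := K_ext rfl e1
          have eq : q = ⟨q.1, 0⟩ := K_ext rfl e2
          rw [ep, eq]
          simp only [hφ0]
          rcases h1 _ _ h4 with h5 | h5
          · exact Or.inl h5
          · exact Or.inr (hs _ _ h5)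
        · left
          apply hG
          show (Big Φ J hΦ).Adj (Φ (lift ψ hψ (some (p, 0)))) (Φ (lift ψ hψ (some (q, 0))))
          rw [lift_hub, lift_hub]
          refine (Big_adj_hub hΦ J _ _).2 (Or.inr ⟨by simp only [e1], ?_⟩)
          exact h4
      · exact Or.inl (hG (Or.inl ⟨hhub p, hleaf p j hj⟩))
      · exact Or.inl (hG (Or.inr (Or.inl ⟨hleaf p i hi, hhub p⟩)))
  · exact Or.inl ⟨rfl, rfl, Or.inl ⟨rfl, rfl, hbc⟩⟩
  · simp only [hφ0]
    exact hs _ _ h2

/-! ### The tree is a tree -/

/-- A parent function with decreasing levels defines a tree. -/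
theorem isTree_of_parent {V : Type} [Fintype V] (r : V) (par : V → V) (lev : V → ℕ)
    (hlev : ∀ x, x ≠ r → lev (par x) < lev x) (T : SimpleGraph V)
    (hT : ∀ x y, T.Adj x y ↔ (x ≠ r ∧ y = par x) ∨ (y ≠ r ∧ x = par y)) : T.IsTree := by
  classical
  have hadj : ∀ x, x ≠ r → T.Adj x (par x) := fun x hx => (hT _ _).2 (Or.inl ⟨hx, rfl⟩)
  have hreach : ∀ n x, lev x = n → T.Reachable r x := by
    intro n
    induction n using Nat.strong_induction_on with
    | _ n ih =>
      intro x hx
      by_cases hr : x = r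
      · rw [hr]
      · exact (ih _ (hx ▸ hlev x hr) _ rfl).trans (hadj x hr).symm.reachable
  have hconn : T.Connected := by
    have : Nonempty V := ⟨r⟩
    refine SimpleGraph.Connected.mk ?_
    intro x y
    exact (hreach _ x rfl).symm.trans (hreach _ y rfl)
  rw [SimpleGraph.isTree_iff_connected_and_card]
  refine ⟨hconn, ?_⟩
  have h1 := hconn.card_vert_le_card_edgeSet_add_one
  have h2 : T.edgeSet ⊆ (fun x => s(x, par x)) '' {x | x ≠ r} := by
    intro e
    induction e using Sym2.ind with
    | _ x y =>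
      intro h
      rw [SimpleGraph.mem_edgeSet, hT] at h
      rcases h with ⟨h1, h2⟩ | ⟨h1, h2⟩
      · exact ⟨x, h1, by simp [h2]⟩
      · exact ⟨y, h1, by simp [h2, Sym2.eq_swap]⟩
  have h3 : Nat.card T.edgeSet ≤ Fintype.card V - 1 := by
    rw [Nat.card_coe_set_eq]
    calc T.edgeSet.ncard ≤ ((fun x => s(x, par x)) '' {x | x ≠ r}).ncard :=
          Set.ncard_le_ncard h2 (Set.toFinite _)
      _ ≤ ({x | x ≠ r} : Set V).ncard := Set.ncard_image_le (Set.toFinite _)
      _ = Fintype.card V - 1 := by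
          have h4 : ({x | x ≠ r} : Set V) = ((Finset.univ.erase r : Finset V) : Set V) := by
            ext x; simp
          rw [h4, Set.ncard_coe_finset, Finset.card_erase_of_mem (Finset.mem_univ _),
            Finset.card_univ]
  have h5 : 0 < Fintype.card V := Fintype.card_pos_iff.2 ⟨r⟩
  rw [Nat.card_eq_fintype_card (α := V)] at h1 ⊢
  omega

/-- The tree `treeG a F R` is a tree if `F` is a forest given by a parent function and `R` is the
set of its roots. -/
theorem treeG_isTree [Fintype X] (F : SimpleGraph X) (R : Set X) (par : X → Option X) (rk : X → ℕ)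
    (hF : ∀ x y, F.Adj x y ↔ par x = some y ∨ par y = some x)
    (hR : ∀ x, x ∈ R ↔ par x = none)
    (hrk : ∀ x y, par x = some y → rk y < rk x) : (treeG a F R).IsTree := by
  classical
  let P : VT a → VT a := fun τ => match τ with
    | none => none
    | some (p, j) => if j = 0 then
        (if p.2.val = 0 then (par p.1).map (fun y => ((⟨y, 0⟩ : K a), (0 : Fin 4)))
          else some (⟨p.1, 0⟩, 0))
        else some (p, 0)
  let L : VT a → ℕ := fun τ => match τ with
    | none => 0
    | some (p, j) => rk p.1 + 1 + (if p.2.val = 0 then 0 else 1) + (if j = 0 then 0 else 1)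
  have P_leaf : ∀ (p : K a) (j : Fin 4), j ≠ 0 → P (some (p, j)) = some (p, 0) := by
    intro p j hj
    simp only [P, hj, if_false]
  have P_priv : ∀ p : K a, p.2.val ≠ 0 → P (some (p, 0)) = some (⟨p.1, 0⟩, 0) := by
    intro p hp
    simp only [P, hp, if_true, if_false]
  have P_root : ∀ p : K a, p.2.val = 0 → par p.1 = none → P (some (p, 0)) = none := by
    intro p hp hpar
    simp only [P, hp, hpar, if_true, Option.map_none]
  have P_par : ∀ (p : K a) (y : X), p.2.val = 0 → par p.1 = some y →
      P (some (p, 0)) = some (⟨y, 0⟩, 0) := by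
    intro p y hp hpar
    simp only [P, hp, hpar, if_true, Option.map_some]
  have L_none : L none = 0 := rfl
  have L_some : ∀ (p : K a) (j : Fin 4), L (some (p, j)) =
      rk p.1 + 1 + (if p.2.val = 0 then 0 else 1) + (if j = 0 then 0 else 1) := fun _ _ => rfl
  refine isTree_of_parent none P L ?_ _ ?_
  · rintro (_ | ⟨p, j⟩) h
    · exact absurd rfl h
    · by_cases hj : j = 0
      · subst hj
        by_cases hp : p.2.val = 0
        · rcases hpar : par p.1 with _ | y
          · rw [P_root p hp hpar, L_none, L_some]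
            omega
          · have := hrk _ _ hpar
            rw [P_par p y hp hpar, L_some, L_some, if_pos hp]
            simp only [Fin.val_zero, if_true]
            omega
        · rw [P_priv p hp, L_some, L_some, if_neg hp]
          simp only [Fin.val_zero, if_true]
          omega
      · rw [P_leaf p j hj, L_some, L_some, if_neg hj, if_pos rfl]
        omega
  · have key : ∀ τ σ : VT a, τ ≠ none ∧ σ = P τ → (treeG a F R).Adj τ σ := by
      rintro (_ | ⟨p, j⟩) σ ⟨h1, rfl⟩
      · exact absurd rfl h1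
      · by_cases hj : j = 0
        · subst hj
          by_cases hp : p.2.val = 0
          · rcases hpar : par p.1 with _ | y
            · rw [P_root p hp hpar]
              exact ⟨rfl, hp, (hR _).2 hpar⟩
            · rw [P_par p y hp hpar]
              exact Or.inl ⟨rfl, rfl, Or.inl ⟨hp, rfl, (hF _ _).2 (Or.inl hpar)⟩⟩
          · rw [P_priv p hp]
            exact Or.inl ⟨rfl, rfl, Or.inr ⟨rfl, Or.inr ⟨hp, rfl⟩⟩⟩
        · rw [P_leaf p j hj]
          exact Or.inr ⟨rfl, Or.inr ⟨hj, rfl⟩⟩
    intro τ σ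
    constructor
    · intro h
      rcases τ with _ | ⟨p, i⟩ <;> rcases σ with _ | ⟨q, j⟩
      · exact absurd h (by simp [treeG])
      · obtain ⟨rfl, h2, h3⟩ := h
        exact Or.inr ⟨by simp, (P_root q h2 ((hR _).1 h3)).symm⟩
      · obtain ⟨rfl, h2, h3⟩ := h
        exact Or.inl ⟨by simp, (P_root p h2 ((hR _).1 h3)).symm⟩
      · rcases h with ⟨rfl, rfl, h3⟩ | ⟨rfl, ⟨rfl, hj⟩ | ⟨hi, rfl⟩⟩
        · rcases h3 with ⟨e1, e2, h4⟩ | ⟨e1, ⟨e2, e3⟩ | ⟨e2, e3⟩⟩
          · have ep : p = ⟨p.1, 0⟩ := K_ext rfl e1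
            have eq : q = ⟨q.1, 0⟩ := K_ext rfl e2
            rcases (hF _ _).1 h4 with h5 | h5
            · left
              refine ⟨by simp, ?_⟩
              rw [P_par p _ e1 h5, ← eq]
            · right
              refine ⟨by simp, ?_⟩
              rw [P_par q _ e2 h5, ← ep]
          · right
            refine ⟨by simp, ?_⟩
            rw [P_priv q e3]
            have ep : p = ⟨q.1, 0⟩ := K_ext e1 e2
            rw [ep]
          · left
            refine ⟨by simp, ?_⟩
            rw [P_priv p e2]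
            have eq : q = ⟨p.1, 0⟩ := K_ext e1.symm e3
            rw [eq]
        · exact Or.inr ⟨by simp, (P_leaf p j hj).symm⟩
        · exact Or.inl ⟨by simp, (P_leaf p i hi).symm⟩
    · rintro (h | h)
      · exact key _ _ h
      · exact (key _ _ h).symm

end

end Pool.Agent.Q76.TB
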